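import Pool.Agent.Helper3.MX.Bas

/-! UNIT DIRECTIONS ALONG DIAGONALS: the condition for one pair of levels is a finite predicate up to `0`; real levels
by monotonicity from rational ones; so `Inv v` is closed under diagonals. -/

set_option autoImplicit false

namespace Pool.Agent.Helper55.INV

open Finset Filter Topology Matrix Pool.Agent.Helper69.RK Pool.Agent.Helper31.EC Pool.Agent.Helper31.EC.Sp
open Pool.Agent.Helper40.EL Pool.Agent.Helper89.LX Pool.Agent.Helper84.MT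
open Pool.Agent.Helper49.MD
open Pool.Agent.Helper29.MX
open Pool.Agent.Helper3.MX

noncomputable section

variable {S T : Sp} {M : ℕ} {E E' : ℕ → ℕ} {ι κ : Type}

/-- digits of the point over the window of the type `i`, on an event of an extension: finite level -/
def UdF (F : FSp) (x : FMs F.Ω M ι) (i : ι) (v : ℕ) (c c' δ : ℝ) : Prop :=
  ∀ (T : FSp) (q : FPj T F) (A : T.Ω → Prop), δ ≤ T.pb A →
    (v : ℝ) * (c' - c) - δ ≤ h (FSp.imap q A (fc (Setoid.ker fun ω => cell (dlF F c') (x.Q ω))))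
      (FSp.imap q A ((x.lf i).win F c)) / F.n

/-- the approximate predicate -/
def udA (M : ℕ) (ι : Type) (i : ι) (v : ℕ) (c c' : ℝ) : AP (KM M ι) where
  P := fun F x δ => UdF F x i v c c' δ
  mono := fun F x δ δ' hd hx T q A hA => by
    have := hx T q A (hd.trans hA)
    linarith

/-- the condition for the levels `c`, `c'` -/
def Uc (v : ℕ) (s : MSys S M E ι) (j : ι) (c c' : ℝ) : Prop := ∀ (T : Sp) (p : Pj T S) (A : ∀ k, (T.F k).Ω → Prop)
  (hA : 0 < ul (T.pr A)),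
    (v : ℝ) * (c' - c) ≤ ul (fun k => h (fc (Setoid.ker ((s.im p A hA).Q.cellv c' k)))
      (((s.im p A hA).lf j).win c k) / ((Sp.im p A).F k).n)

theorem ud_iff {v : ℕ} {s : MSys S M E ι} {j : ι} :
    Ud v s j ↔ ∀ c c' : ℝ, 0 ≤ c → c ≤ c' → c' ≤ 1 → Uc v s j c c' :=
  ⟨fun hu c c' h0 h1 h2 T p A hA => hu T p A hA c c' h0 h1 h2, fun hu T p A hA c c' h0 h1 h2 =>
    hu c c' h0 h1 h2 T p A hA⟩

/-- the space of the choice of the extensions -/
def cT (S : Sp) (T : ∀ _ : ℕ, FSp) (_ : ∀ k, FPj (T k) (S.F k)) : Sp where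
  F := fun k =>
    { Ω := (T k).Ω
      ft := (T k).ft
      μ := (T k).μ
      nn := (T k).nn
      ms := (T k).ms
      Z := (T k).Z
      n := (S.F k).n
      pos := (S.F k).pos }
  lim := S.lim

def cq (S : Sp) (T : ∀ _ : ℕ, FSp) (q : ∀ k, FPj (T k) (S.F k)) : Pj (cT S T q) S where
  π := fun k => (q k).π
  law := fun k => (q k).law
  hZ := fun k => (q k).hZ
  hn := fun _ => rfl

/-- THE CONDITION OF ONE PAIR OF LEVELS IS A FINITE PREDICATE UP TO `0` -/
theorem uc_iff {v : ℕ} {s : MSys S M E ι} {j : ι} {c c' : ℝ} : Uc v s j c c' ↔ (udA M ι j v c c').pd 0 S (ob s) := by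
  classical
  constructor
  · intro hu δ hδ
    by_contra hn
    have h1 : ∀ᶠ k in UF, ¬ UdF (S.F k) (ob s k) j v c c' δ := UF_not hn
    have h2 : ∀ k, ∃ (T : FSp) (q : FPj T (S.F k)) (A : T.Ω → Prop), (¬ UdF (S.F k) (ob s k) j v c c' δ) →
        δ ≤ T.pb A ∧ h (FSp.imap q A (fc (Setoid.ker fun ω => cell (dlF (S.F k) c') ((ob s k).Q ω))))
          (FSp.imap q A (((ob s k).lf j).win (S.F k) c)) / (S.F k).n < (v : ℝ) * (c' - c) - δ := by
      intro k
      by_cases hk : UdF (S.F k) (ob s k) j v c c' δ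
      · exact ⟨S.F k, ⟨id, push_id _, fun _ _ _ _ => Iff.rfl⟩, fun _ => True, fun h => absurd hk h⟩
      · unfold UdF at hk
        push Not at hk
        obtain ⟨T, q, A, h3, h4⟩ := hk
        exact ⟨T, q, A, fun _ => ⟨h3, h4⟩⟩
    choose T q A hTA using h2
    have hpr : ∀ᶠ k in UF, δ ≤ (cT S T q).pr A k := by
      filter_upwards [h1] with k hk
      exact (hTA k hk).1
    have hA : 0 < ul ((cT S T q).pr A) := lt_of_lt_of_le hδ (const_le_ul (Sp.UB_pr _) hpr)
    have h3 := hu (cT S T q) (cq S T q) A hA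
    have u1 := UB_cell (s.Q.im (cq S T q) A) c' (((s.im (cq S T q) A hA).lf j).win c)
    have h4 : ul (fun k => h (fc (Setoid.ker ((s.im (cq S T q) A hA).Q.cellv c' k)))
      (((s.im (cq S T q) A hA).lf j).win c k) / ((Sp.im (cq S T q) A).F k).n) ≤ (v : ℝ) * (c' - c) - δ := by
      refine ul_le_const u1 ?_
      filter_upwards [h1] with k hk
      exact (hTA k hk).2.le
    linarith
  · intro hu T p A hA
    have u1 := UB_cell (s.Q.im p A) c' (((s.im p A hA).lf j).win c)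
    refine le_of_forall_pos_le_add fun ε hε => ?_
    set δ := min ε (ul (T.pr A) / 2) with hδ
    have hd : 0 < δ := lt_min hε (half_pos hA)
    have h1 := hu δ hd
    have h2 : (v : ℝ) * (c' - c) - δ ≤ ul (fun k => h (fc (Setoid.ker ((s.im p A hA).Q.cellv c' k)))
      (((s.im p A hA).lf j).win c k) / ((Sp.im p A).F k).n) := by
      refine const_le_ul u1 ?_
      filter_upwards [h1, pr_half' hA] with k a b
      exact a (T.F k) (p.fp k) (A k) ((min_le_right _ _).trans b)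
    have h3 : δ ≤ ε := min_le_left _ _
    linarith

/-- more digits and coarser windows -/
theorem ul_mono (s : MSys S M E ι) (j : ι) {c c₁ c₁' c' : ℝ} (h1 : c ≤ c₁) (h2 : c₁' ≤ c') :
    ul (fun k => h (fc (Setoid.ker (s.Q.cellv c₁' k))) ((s.lf j).win c₁ k) / (S.F k).n) ≤
      ul (fun k => h (fc (Setoid.ker (s.Q.cellv c' k))) ((s.lf j).win c k) / (S.F k).n) := by
  have u1 := UB_cell s.Q c₁' ((s.lf j).win c₁)
  have u2 := UB_cell s.Q c' ((s.lf j).win c)
  have n1 : PLe (fun k => fc (Setoid.ker (s.Q.cellv c₁' k))) (fun k => fc (Setoid.ker (s.Q.cellv c' k))) :=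
    PLe_cell_cell s.Q h2 _ fun _ => le_rfl
  have n2 := (s.lf j).win_mono h1
  have t1 := ((ul_tendsto u2).add n1).add n2
  rw [add_zero, add_zero] at t1
  refine le_of_tendsto_of_tendsto (ul_tendsto u1) t1 (Eventually.of_forall fun k => ?_)
  have h3 := h_triangle' (fc (Setoid.ker (s.Q.cellv c₁' k))) (fc (Setoid.ker (s.Q.cellv c' k))) ((s.lf j).win c₁ k)
  have h4 := h_triangle' (fc (Setoid.ker (s.Q.cellv c' k))) ((s.lf j).win c k) ((s.lf j).win c₁ k)
  show h (fc (Setoid.ker (s.Q.cellv c₁' k))) ((s.lf j).win c₁ k) / (S.F k).n ≤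
    h (fc (Setoid.ker (s.Q.cellv c' k))) ((s.lf j).win c k) / (S.F k).n +
      h (fc (Setoid.ker (s.Q.cellv c₁' k))) (fc (Setoid.ker (s.Q.cellv c' k))) / (S.F k).n +
        h ((s.lf j).win c k) ((s.lf j).win c₁ k) / (S.F k).n
  rw [← add_div, ← add_div]
  exact div_le_div_of_nonneg_right (by linarith) (S.F k).pos.le

/-- REAL LEVELS FROM RATIONAL LEVELS -/
theorem ud_of_rat {v : ℕ} {s : MSys S M E ι} {j : ι}
    (hr : ∀ a b : ℚ, (0 : ℝ) ≤ a → (a : ℝ) ≤ b → (b : ℝ) ≤ 1 → Uc v s j a b) : Ud v s j := by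
  intro T p A hA c c' h0 h1 h2
  have hnn : (0 : ℝ) ≤ ul (fun k => h (fc (Setoid.ker ((s.im p A hA).Q.cellv c' k)))
      (((s.im p A hA).lf j).win c k) / ((Sp.im p A).F k).n) :=
    const_le_ul (UB_cell (s.im p A hA).Q c' _) (Eventually.of_forall fun k =>
      div_nonneg (h_nonneg _ _) ((Sp.im p A).F k).pos.le)
  rcases h1.eq_or_lt with e | h1
  · rw [e, sub_self, mul_zero]
    rw [← e]
    rw [← e] at hnn
    exact hnn
  refine le_of_forall_pos_le_add fun ε hε => ?_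
  set η := min (ε / (2 * (v + 1))) ((c' - c) / 2) with hη
  have hη0 : 0 < η := lt_min (by positivity) (by linarith)
  obtain ⟨a, ha1, ha2⟩ := exists_rat_btwn (show c < c + η by linarith)
  obtain ⟨b, hb1, hb2⟩ := exists_rat_btwn (show c' - η < c' by linarith)
  have h3 : η ≤ (c' - c) / 2 := min_le_right _ _
  have h4 : η ≤ ε / (2 * (v + 1)) := min_le_left _ _
  have h5 : η * (2 * (v + 1)) ≤ ε := (le_div_iff₀ (by positivity)).mp h4
  have h6 := hr a b (by linarith) (by linarith) (by linarith) T p A hA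
  have h7 := ul_mono (s.im p A hA) j (c := c) (c₁ := a) (c₁' := b) (c' := c') ha1.le hb2.le
  have h8 := h6.trans h7
  have h9 : (v : ℝ) * (c' - c) ≤ v * (b - a) + ε := by
    have hv : (0 : ℝ) ≤ v := Nat.cast_nonneg v
    nlinarith
  linarith

/-- countably many conditions -/
theorem dg_all {K : FK} {I : Type} [Countable I] [Nonempty I] {C : I → K.Pd} (hC : ∀ q, DiagCl (C q)) :
    DiagCl (fun S x => ∀ q, C q S x) := by
  obtain ⟨g, hg⟩ := exists_surjective_nat I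
  have h1 : DiagCl (fun S x => ∀ n, C (g n) S x) := DiagCl.all fun n => hC (g n)
  refine DiagTo.mono h1 (fun _ _ _ h n => h (g n)) fun _ _ h q => ?_
  obtain ⟨n, rfl⟩ := hg q
  exact h n

theorem dg_imp {K : FK} {P : Prop} {C : K.Pd} (hC : DiagCl C) : DiagCl (fun S x => P → C S x) := by
  intro S x hx
  by_cases hP : P
  · obtain ⟨R, hR, h1⟩ := hC S x fun j => hx j hP
    exact ⟨R, hR, fun J h _ => h1 J h⟩
  · exact ⟨fun _ _ _ => True, fun _ _ => Eventually.of_forall fun _ => trivial, fun _ _ h => absurd h hP⟩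

/-- unit directions of an object -/
def UO (M : ℕ) (ι : Type) (v : ℕ) : (KM M ι).Pd := fun S x =>
  ∀ q : ι × ℚ × ℚ, ((0 : ℝ) ≤ q.2.1 ∧ (q.2.1 : ℝ) ≤ q.2.2 ∧ (q.2.2 : ℝ) ≤ 1) → (udA M ι q.1 v q.2.1 q.2.2).pd 0 S x

theorem uo_inv {v : ℕ} : Pool.Agent.Helper49.MD.Inv (UO M ι v) := fun S x y e hx q hq =>
  (udA M ι q.1 v q.2.1 q.2.2).inv 0 S x y e (hx q hq)

theorem uo_dg [Countable ι] [Nonempty ι] {v : ℕ} : DiagCl (UO M ι v) :=
  dg_all fun q => dg_imp ((udA M ι q.1 v q.2.1 q.2.2).diagCl 0)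

theorem uo_ob {v : ℕ} {s : MSys S M E ι} : UO M ι v S (ob s) ↔ ∀ i, Ud v s i := by
  constructor
  · intro hs i
    exact ud_of_rat fun a b h0 h1 h2 => uc_iff.mpr (hs (i, a, b) ⟨h0, h1, h2⟩)
  · intro hs q hq
    exact uc_iff.mp (ud_iff.mp (hs q.1) _ _ hq.1 hq.2.1 hq.2.2)

/-- unit directions of systems with the same object -/
theorem inv_ob {v : ℕ} {s t : MSys S M E ι} (e : ∀ᶠ k in UF, ob s k = ob t k) (h : Inv v s) : Inv v t :=
  ⟨h.1, uo_ob.mp (uo_inv S _ _ e (uo_ob.mpr h.2))⟩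

/-- CLASSES WITH UNIT DIRECTIONS ARE CLOSED UNDER DIAGONALS -/
theorem and_inv_dg [Countable ι] {C : ∀ S : Sp, MSys S M E ι → Prop} (hC : DiagCl (lft C)) (v : ℕ) :
    DiagCl (lft fun S (s : MSys S M E ι) => C S s ∧ Inv v s) := by
  rcases isEmpty_or_nonempty ι with hι | hι
  · intro S x hx
    obtain ⟨s, _, hs⟩ := hx 0
    exact absurd hs.2.1 (not_nonempty_iff.mpr hι)
  · have h1 : DiagCl (fun S x => lft C S x ∧ UO M ι v S x) := hC.and uo_dg
    refine DiagTo.mono h1 (fun _ S x h => ?_) fun S x h => ?_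
    · obtain ⟨s, e, hs⟩ := h
      exact ⟨⟨s, e, hs.1⟩, uo_inv S _ _ e (uo_ob.mpr hs.2.2)⟩
    · obtain ⟨⟨s, e, hs⟩, h2⟩ := h
      exact ⟨s, e, hs, hι, uo_ob.mp (uo_inv S _ _ (e.mono fun _ hk => hk.symm) h2)⟩

/-- INV(v) IS CLOSED UNDER DIAGONALS -/
theorem inv_dg [Finite ι] (v : ℕ) : DiagCl (lft fun S (s : MSys S M E ι) => Inv v s) := by
  have h1 : DiagCl (lft fun S (_ : MSys S M E ι) => True) := by
    refine DiagTo.mono (isM_diagCl (M := M) (E := E) (ι := ι)) (fun _ S x h => lft_isM h) fun S x h => ?_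
    obtain ⟨s, e⟩ := h
    exact ⟨s, e, trivial⟩
  refine DiagTo.mono (and_inv_dg h1 v) (fun _ S x h => ?_) fun S x h => ?_
  · obtain ⟨s, e, hs⟩ := h
    exact ⟨s, e, trivial, hs⟩
  · obtain ⟨s, e, hs⟩ := h
    exact ⟨s, e, hs.2⟩

end

end Pool.Agent.Helper55.INV
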