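import Pool.Agent.Helper55.INV.Dg

/-! UNIT DIRECTIONS FROM SHORT INTERVALS: digits over windows are superadditive, so the pairs of levels `0 < b ≤ b' ≤ 2 b`
are enough. -/

set_option autoImplicit false

namespace Pool.Agent.Helper55.INV

open Finset Filter Topology Matrix Pool.Agent.Helper69.RK Pool.Agent.Helper31.EC Pool.Agent.Helper31.EC.Sp
open Pool.Agent.Helper40.EL Pool.Agent.Helper89.LX Pool.Agent.Helper84.MT
open Pool.Agent.Helper49.MD
open Pool.Agent.Helper29.MX
open Pool.Agent.Helper3.MX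

noncomputable section

variable {S T : Sp} {M : ℕ} {E E' : ℕ → ℕ} {ι κ : Type}

/-- digits over windows -/
def dgw (s : MSys S M E ι) (j : ι) (b b' : ℝ) : ℝ :=
  ul (fun k => h (fc (Setoid.ker (s.Q.cellv b' k))) ((s.lf j).win b k) / (S.F k).n)

/-- SUPERADDITIVITY -/
theorem dgw_add (s : MSys S M E ι) (j : ι) {a b c : ℝ} (h0 : 0 ≤ a) (h1 : a ≤ b) (h2 : b ≤ c) (h3 : b ≤ 1) :
    dgw s j a b + dgw s j b c ≤ dgw s j a c := by
  have u1 := UB_cell s.Q b ((s.lf j).win a)
  have u2 := UB_cell s.Q c ((s.lf j).win b)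
  have u3 := UB_cell s.Q c ((s.lf j).win a)
  have n1 : PLe (fun k => fc (Setoid.ker (s.Q.cellv b k))) (fun k => fc (Setoid.ker (s.Q.cellv c k))) :=
    PLe_cell_cell s.Q h2 _ fun _ => le_rfl
  have n2 := (s.lf j).win_mono h1
  have n3 := (s.lf j).dg_win (h0.trans h1) h3
  have t1 := (((ul_tendsto u3).add n1).add n2).add n3
  rw [add_zero, add_zero, add_zero] at t1
  refine le_of_tendsto_of_tendsto ((ul_tendsto u1).add (ul_tendsto u2)) t1 (Eventually.of_forall fun k => ?_)
  set x := (fc (Setoid.ker (s.Q.cellv b k)) : FL (S.F k)) with hx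
  set y := (fc (Setoid.ker (s.Q.cellv c k)) : FL (S.F k)) with hy
  set w := (s.lf j).win a k with hw
  set w' := (s.lf j).win b k with hw'
  show h x w / (S.F k).n + h y w' / (S.F k).n ≤ h y w / (S.F k).n + h x y / (S.F k).n + h w w' / (S.F k).n +
    h x w' / (S.F k).n
  rw [← add_div, ← add_div, ← add_div, ← add_div]
  refine div_le_div_of_nonneg_right ?_ (S.F k).pos.le
  -- the pair
  have e1 : h (y ⊔ x) w = h x w + h y (x ⊔ w) := by
    rw [sup_comm y x]
    exact h_chain x y w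
  have e2 : h (y ⊔ x) w = h y w + h x (y ⊔ w) := h_chain y x w
  have e3 : h x (y ⊔ w) ≤ h x y := h_anti le_sup_left
  have e4 := h_triangle' y (x ⊔ w) w'
  have e5 := h_sup_le x w w'
  linarith

theorem dgw_nonneg (s : MSys S M E ι) (j : ι) (a b : ℝ) : 0 ≤ dgw s j a b :=
  const_le_ul (UB_cell s.Q b _) (Eventually.of_forall fun k => div_nonneg (h_nonneg _ _) (S.F k).pos.le)

theorem dgw_mono (s : MSys S M E ι) (j : ι) {c c₁ c' : ℝ} (h1 : c ≤ c₁) : dgw s j c₁ c' ≤ dgw s j c c' :=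
  ul_mono s j h1 le_rfl

/-- from short intervals to all intervals -/
theorem dgw_chain (s : MSys S M E ι) (j : ι) {v : ℕ} (hs : ∀ b b' : ℝ, 0 < b → b ≤ b' → b' ≤ 1 → b' ≤ 2 * b →
    (v : ℝ) * (b' - b) ≤ dgw s j b b') : ∀ b b' : ℝ, 0 ≤ b → b ≤ b' → b' ≤ 1 → (v : ℝ) * (b' - b) ≤ dgw s j b b' := by
  have key : ∀ N : ℕ, ∀ b b' : ℝ, 0 < b → b ≤ b' → b' ≤ 1 → b' ≤ 2 ^ N * b → (v : ℝ) * (b' - b) ≤ dgw s j b b' := by
    intro N
    induction N with
    | zero =>
      intro b b' h0 h1 _ h3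
      rw [pow_zero, one_mul] at h3
      have e1 : b' = b := le_antisymm h3 h1
      rw [e1, sub_self, mul_zero]
      exact dgw_nonneg _ _ _ _
    | succ N ih =>
      intro b b' h0 h1 h2 h3
      by_cases h4 : b' ≤ 2 * b
      · exact hs b b' h0 h1 h2 h4
      · rw [not_le] at h4
        have h5 := hs b (2 * b) h0 (by linarith) (by linarith) le_rfl
        have h6 := ih (2 * b) b' (by linarith) h4.le h2 (by
          rw [pow_succ] at h3
          linarith)
        have h7 := dgw_add s j h0.le (show b ≤ 2 * b by linarith) h4.le (by linarith)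
        have e1 : (v : ℝ) * (b' - b) = v * (2 * b - b) + v * (b' - 2 * b) := by ring
        rw [e1]
        linarith
  intro b b' h0 h1 h2
  rcases h0.eq_or_lt with e | h0
  · subst e
    rcases h1.eq_or_lt with e | h1
    · rw [← e, sub_self, mul_zero]
      exact dgw_nonneg _ _ _ _
    refine le_of_forall_pos_le_add fun ε hε => ?_
    set η := min (ε / (v + 1)) b' with hη
    have hη0 : 0 < η := lt_min (by positivity) h1
    have h3 : η ≤ b' := min_le_right _ _
    have h4 : η * (v + 1) ≤ ε := (le_div_iff₀ (by positivity)).mp (min_le_left _ _)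
    obtain ⟨N, hN⟩ := pow_unbounded_of_one_lt (b' / η) (show (1 : ℝ) < 2 by norm_num)
    have h5 := key N η b' hη0 h3 h2 ((div_lt_iff₀ hη0).mp hN).le
    have h6 := dgw_mono s j (c' := b') hη0.le
    have hv : (0 : ℝ) ≤ v := Nat.cast_nonneg v
    nlinarith
  · obtain ⟨N, hN⟩ := pow_unbounded_of_one_lt (b' / b) (show (1 : ℝ) < 2 by norm_num)
    exact key N b b' h0 h1 h2 ((div_lt_iff₀ h0).mp hN).le

end

end Pool.Agent.Helper55.INV
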