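import Pool.Agent.Helper55.INV.Dg
import Pool.Agent.Helper26.OUT.Gu

/-! UNIT DIRECTIONS OF ZOOMS: a system over a label `l` with unit `e`; the windows of its types are the windows
`c + e b`, the label has no leak there, and the cells of level `c + e b` of the old point are known to the cells of level
`b` of the new one. Zooms in frames (`Gzf`), truncations. -/

set_option autoImplicit false

namespace Pool.Agent.Helper55.INV

open Finset Filter Topology Matrix Pool.Agent.Helper69.RK Pool.Agent.Helper31.EC Pool.Agent.Helper31.EC.Sp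
open Pool.Agent.Helper40.EL Pool.Agent.Helper89.LX Pool.Agent.Helper84.MT
open Pool.Agent.Helper49.MD Pool.Agent.Helper36.AM
open Pool.Agent.Helper29.MX
open Pool.Agent.Helper3.MX (UB_cell imc imc_im imap_eq_rest)

noncomputable section

variable {S T : Sp} {M N : ℕ} {E E' : ℕ → ℕ} {ι κ : Type}

/-- informations under restriction to an event of an extension -/
theorem PLe_im {A B : Part S} (hAB : PLe A B) (p : Pj T S) (G : ∀ k, (T.F k).Ω → Prop) (hG : 0 < ul (T.pr G)) :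
    PLe (S := Sp.im p G) (fun k => FSp.imap (p.fp k) (G k) (A k)) (fun k => FSp.imap (p.fp k) (G k) (B k)) := by
  have h1 : Nul T (fun k => h (A k) (B k)) := (Lab.nul_pj p).mpr hAB
  have h2 : Nul T (fun k => h (FSp.imap (p.fp k) (G k) (A k)) (FSp.imap (p.fp k) (G k) (B k))) := by
    refine Nul.div_pr hG h1 (fun k => h_nonneg _ _) fun k => ?_
    have e1 := (FSp.imp (p.fp k) (G k)).h_map (FSp.imap (p.fp k) (G k) (A k)) (FSp.imap (p.fp k) (G k) (B k))
    rw [FSp.imp_imap, FSp.imp_imap] at e1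
    rw [← e1]
    have h3 := (T.F k).rmap_h_le (G k) ((p.fp k).map (A k)) ((p.fp k).map (B k))
    rw [(p.fp k).h_map] at h3
    exact h3.trans (by linarith)
  exact (Lab.nul_pj p).mp h2

/-! ### the space without the refinement of the base -/

section unb

variable (l : Lab S) {e : ℝ} {he : 0 < e} {T' : Sp} (p : Pj T' (l.ovr e he))

/-- an extension of the space over a label, with the base and the unit of the space -/
def unb : Sp where
  F := fun k =>
    { Ω := (T'.F k).Ω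
      ft := (T'.F k).ft
      μ := (T'.F k).μ
      nn := (T'.F k).nn
      ms := (T'.F k).ms
      Z := Setoid.comap (p.π k) (l k).T.Z
      n := (l k).T.n
      pos := (l k).T.pos }
  lim := l.sp.lim

/-- the projection -/
def unp : Pj (unb l p) l.sp where
  π := p.π
  law := fun k => p.law k
  hZ := fun _ _ _ _ _ => Iff.rfl
  hn := fun _ => rfl

/-- an event of the extension -/
def unA (A : ∀ k, (T'.F k).Ω → Prop) : ∀ k, ((unb l p).F k).Ω → Prop := A

/-- the law over the label given an event -/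
def imb (A : ∀ k, (T'.F k).Ω → Prop) (k : ℕ) : FRb ((Sp.im p A).F k) ((Sp.im (unp l p) (unA l p A)).F k) where
  π := fun ω => ω
  law := push_id _
  W := (l k).V
  hZ := fun _ _ _ _ => Iff.rfl

theorem imb_map (A : ∀ k, (T'.F k).Ω → Prop) (k : ℕ) (x : FL (S.F k)) :
    (imb l p A k).map (FSp.imap ((unp l p).fp k) (unA l p A k) ((l k).p.map x)) =
      FSp.imap (p.fp k) (A k) ((l k).up e he x) := by
  induction x using fc_ind
  rfl

/-- ENTROPIES OVER THE LABEL, on an event of an extension -/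
theorem h_bas (A : ∀ k, (T'.F k).Ω → Prop) (hA : 0 < ul (T'.pr A)) {x y : Part S}
    (hy : Nul S (fun k => (l k).leak (y k))) : ∃ ν : ℕ → ℝ, Tendsto ν UF (𝓝 0) ∧ ∀ᶠ k in UF,
      h (FSp.imap (((unp l p).comp l.pj).fp k) (unA l p A k) (x k))
        (FSp.imap (((unp l p).comp l.pj).fp k) (unA l p A k) (y k)) / (S.F k).n - ν k ≤
        h (FSp.imap (p.fp k) (A k) ((l k).up e he (x k))) (FSp.imap (p.fp k) (A k) ((l k).up e he (y k))) /
          (S.F k).n := by
  have h1 : Nul S (fun k => 2 / ul (T'.pr A) * ((l k).leak (y k) + 1)) := (hy.add (Nul.const S 1)).const_mul _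
  refine ⟨_, h1, ?_⟩
  filter_upwards [pr_half' hA] with k hk
  have hpos := (S.F k).pos
  set a : FL ((Sp.im (unp l p) (unA l p A)).F k) := FSp.imap ((unp l p).fp k) (unA l p A k) ((l k).p.map (x k)) with ha
  set b : FL ((Sp.im (unp l p) (unA l p A)).F k) := FSp.imap ((unp l p).fp k) (unA l p A k) ((l k).p.map (y k)) with hb
  set v : FL ((Sp.im (unp l p) (unA l p A)).F k) := FSp.imap ((unp l p).fp k) (unA l p A k) (l k).v with hv
  have e1 : h (FSp.imap (((unp l p).comp l.pj).fp k) (unA l p A k) (x k))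
      (FSp.imap (((unp l p).comp l.pj).fp k) (unA l p A k) (y k)) = h a b := by
    have h2 := ((imc l.pj (unp l p) (unA l p A)).fp k).h_map
      (FSp.imap (((unp l p).comp l.pj).fp k) (unA l p A k) (x k))
      (FSp.imap (((unp l p).comp l.pj).fp k) (unA l p A k) (y k))
    rw [imc_im l.pj (unp l p) (unA l p A) k (x k), imc_im l.pj (unp l p) (unA l p A) k (y k)] at h2
    exact h2.symm
  have e2 : h (FSp.imap (p.fp k) (A k) ((l k).up e he (x k)))
      (FSp.imap (p.fp k) (A k) ((l k).up e he (y k))) = h a (b ⊔ v) :=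
    (congrArg₂ (fun u w => h u w) (imb_map l p A k (x k)).symm (imb_map l p A k (y k)).symm).trans
      ((imb l p A k).h_map a b)
  have e3 := I_eq' v a b
  rw [sup_comm v] at e3
  have e4 : T'.pr A k * I v a b ≤ (l k).leak (y k) + 1 :=
    Pool.Agent.Helper3.MX.fin_bas (l k) ((unp l p).fp k) (unA l p A k) (x k) (y k)
  have e5 : I v a b ≤ 2 / ul (T'.pr A) * ((l k).leak (y k) + 1) := by
    have h2 : ul (T'.pr A) / 2 * I v a b ≤ (l k).leak (y k) + 1 :=
      (mul_le_mul_of_nonneg_right hk (I_nonneg _ _ _)).trans e4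
    have h3 : 2 / ul (T'.pr A) * (ul (T'.pr A) / 2 * I v a b) = I v a b := by
      field_simp
    rw [← h3]
    exact mul_le_mul_of_nonneg_left h2 (by positivity)
  rw [e2]
  have e6 : h a b / (S.F k).n - 2 / ul (T'.pr A) * ((l k).leak (y k) + 1) / (S.F k).n ≤ h a (b ⊔ v) / (S.F k).n := by
    rw [← sub_div]
    exact div_le_div_of_nonneg_right (by linarith) hpos.le
  rw [← e1] at e6
  exact e6

end unb

/-- UNIT DIRECTIONS OF ZOOMS -/
theorem ud_zoom {s : MSys S M E ι} {i : ι} {v : ℕ} (hu : Ud v s i) (l : Lab S) {c e : ℝ} (he : 0 < e) (hc : 0 ≤ c)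
    (hce : c + e ≤ 1) (hl : ∀ b : ℝ, 0 ≤ b → b ≤ 1 → Nul S (fun k => (l k).leak ((s.lf i).win (c + e * b) k)))
    {t : MSys (l.ovr e he) N E' κ} {j : κ}
    (hw : ∀ b : ℝ, 0 ≤ b → b ≤ 1 → PLe ((t.lf j).win b) (l.up e he ((s.lf i).win (c + e * b))))
    (hp : ∀ b : ℝ, 0 ≤ b → b ≤ 1 → PLe (l.up e he (fun k => fc (Setoid.ker (s.Q.cellv (c + e * b) k))))
      (fun k => fc (Setoid.ker (t.Q.cellv b k)))) : Ud v t j := by
  intro T' p A hA b b' h0 h1 h2
  have hb1 : b ≤ 1 := h1.trans h2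
  have hb0 : 0 ≤ b' := h0.trans h1
  have h3 := hu (unb l p) ((unp l p).comp l.pj) (unA l p A) hA (c + e * b) (c + e * b') (by positivity)
    (by nlinarith) (by nlinarith)
  obtain ⟨ν, hν, h4⟩ := h_bas l p A hA (x := fun k => fc (Setoid.ker (s.Q.cellv (c + e * b') k))) (hl b h0 hb1)
  have n1 := PLe_im (hw b h0 hb1) p A hA
  have n2 := PLe_im (hp b' hb0 h2) p A hA
  have u1 := UB_cell (s.Q.im ((unp l p).comp l.pj) (unA l p A)) (c + e * b')
    (((s.im ((unp l p).comp l.pj) (unA l p A) hA).lf i).win (c + e * b))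
  have u2 := UB_cell (t.Q.im p A) b' (((t.im p A hA).lf j).win b)
  have hn : ∀ k, ((Sp.im p A).F k).n = e * (S.F k).n := fun k => l.n_over e he k
  -- in the unit of the space
  have t1 : Tendsto (fun k => h (fc (Setoid.ker ((s.Q.im ((unp l p).comp l.pj) (unA l p A)).cellv (c + e * b') k)))
      (((s.im ((unp l p).comp l.pj) (unA l p A) hA).lf i).win (c + e * b) k) /
        ((Sp.im ((unp l p).comp l.pj) (unA l p A)).F k).n - ν k) UF
      (𝓝 (ul (fun k => h (fc (Setoid.ker ((s.Q.im ((unp l p).comp l.pj) (unA l p A)).cellv (c + e * b') k)))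
        (((s.im ((unp l p).comp l.pj) (unA l p A) hA).lf i).win (c + e * b) k) /
          ((Sp.im ((unp l p).comp l.pj) (unA l p A)).F k).n) - 0)) := (ul_tendsto u1).sub hν
  have t2 := ((((ul_tendsto u2).add n1).add n2).const_mul e)
  rw [add_zero, add_zero] at t2
  rw [sub_zero] at t1
  have h5 : ul (fun k => h (fc (Setoid.ker ((s.Q.im ((unp l p).comp l.pj) (unA l p A)).cellv (c + e * b') k)))
        (((s.im ((unp l p).comp l.pj) (unA l p A) hA).lf i).win (c + e * b) k) /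
          ((Sp.im ((unp l p).comp l.pj) (unA l p A)).F k).n) ≤
      e * ul (fun k => h (fc (Setoid.ker ((t.Q.im p A).cellv b' k))) (((t.im p A hA).lf j).win b k) /
        ((Sp.im p A).F k).n) := by
    refine le_of_tendsto_of_tendsto t1 t2 ?_
    filter_upwards [h4] with k hk
    refine hk.trans ?_
    have e8 : e * (h (fc (Setoid.ker ((t.Q.im p A).cellv b' k))) (((t.im p A hA).lf j).win b k) /
        ((Sp.im p A).F k).n + h (FSp.imap (p.fp k) (A k) ((t.lf j).win b k))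
          (FSp.imap (p.fp k) (A k) (l.up e he ((s.lf i).win (c + e * b)) k)) / ((Sp.im p A).F k).n +
        h (FSp.imap (p.fp k) (A k) (l.up e he (fun k => fc (Setoid.ker (s.Q.cellv (c + e * b') k))) k))
          (FSp.imap (p.fp k) (A k) (fc (Setoid.ker (t.Q.cellv b' k)))) / ((Sp.im p A).F k).n) =
        (h (fc (Setoid.ker ((t.Q.im p A).cellv b' k))) (((t.im p A hA).lf j).win b k) +
          h (FSp.imap (p.fp k) (A k) ((t.lf j).win b k))
          (FSp.imap (p.fp k) (A k) (l.up e he ((s.lf i).win (c + e * b)) k)) +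
          h (FSp.imap (p.fp k) (A k) (l.up e he (fun k => fc (Setoid.ker (s.Q.cellv (c + e * b') k))) k))
          (FSp.imap (p.fp k) (A k) (fc (Setoid.ker (t.Q.cellv b' k))))) / (S.F k).n := by
      have hS := (S.F k).pos
      rw [hn k]
      field_simp
    refine le_trans (div_le_div_of_nonneg_right ?_ (S.F k).pos.le) (le_of_eq e8.symm)
    set a : FL ((Sp.im p A).F k) := FSp.imap (p.fp k) (A k)
      ((l k).up e he (fc (Setoid.ker (s.Q.cellv (c + e * b') k)))) with ha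
    set a' : FL ((Sp.im p A).F k) := FSp.imap (p.fp k) (A k) (fc (Setoid.ker (t.Q.cellv b' k))) with ha'
    set w : FL ((Sp.im p A).F k) := FSp.imap (p.fp k) (A k) ((l k).up e he ((s.lf i).win (c + e * b) k)) with hw'
    set w' : FL ((Sp.im p A).F k) := FSp.imap (p.fp k) (A k) ((t.lf j).win b k) with hw''
    have g1 := h_triangle' a a' w
    have g2 := h_triangle' a' w' w
    show h a w ≤ h a' w' + h w' w + h a a'
    linarith
  have h6 := h3.trans h5
  have h7 : (v : ℝ) * (c + e * b' - (c + e * b)) = e * (v * (b' - b)) := by ring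
  rw [h7] at h6
  exact le_of_mul_le_mul_left h6 he

/-- cells of the old point known to the cells of a point over a label -/
theorem up_cell_le (Q : S.VV M) (l : Lab S) {e : ℝ} (he : 0 < e) (X : (l.ovr e he).VV N) (r b : ℝ)
    (h1 : ∃ K : ℕ → ℝ, S.Sub K ∧ ∀ᶠ k in UF, ∀ ω ω' : (l k).T.Ω, (l k).T.μ ω ≠ 0 → (l k).T.μ ω' ≠ 0 →
      (l k).T.Z ω ω' → (l k).V ω ω' → (∀ i, |X.v k ω i - X.v k ω' i| ≤ S.dl (e * b) k) →
        ∀ i, |Q.v k ((l k).p.π ω) i - Q.v k ((l k).p.π ω') i| ≤ K k * S.dl r k) :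
    PLe (l.up e he (fun k => fc (Setoid.ker (Q.cellv r k)))) (fun k => fc (Setoid.ker (X.cellv b k))) := by
  obtain ⟨K, hK, h2⟩ := h1
  have h3 : PLe (S := l.ovr e he) (fun k => fc (Setoid.ker (((l.pj.vv Q).chg l.V e he).cellv (r / e) k)))
      (fun k => fc (Setoid.ker (X.cellv b k))) := by
    refine PLe_cell (S := l.ovr e he) ((l.pj.vv Q).chg l.V e he) (r / e) _ K
      ((Pool.Agent.Helper26.OUT.ovr_Sub l e he).mp hK) ?_
    filter_upwards [h2] with k hk
    intro (ω : (l k).T.Ω) (ω' : (l k).T.Ω) a a' z w i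
    obtain ⟨z1, z2⟩ := Pool.Agent.Helper26.OUT.ovr_Z l e he k ω ω' z
    have h4 : (l.ovr e he).dl (r / e) k = S.dl r k := by
      rw [Pool.Agent.Helper26.OUT.ovr_dl, mul_div_cancel₀ _ he.ne']
    rw [h4]
    refine hk ω ω' a a' z2 z1 (fun i => ?_) i
    have h5 : |X.v k ω i - X.v k ω' i| ≤ (l.ovr e he).dl b k :=
      abs_sub_le_of_floor_eq ((l.ovr e he).dl_pos b k) (congrFun w i)
    rwa [Pool.Agent.Helper26.OUT.ovr_dl] at h5
  have e1 : (l.up e he (fun k => fc (Setoid.ker (Q.cellv r k)))) =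
      fun k => fc (F := (l.ovr e he).F k) (Setoid.ker (((l.pj.vv Q).chg l.V e he).cellv (r / e) k)) := by
    funext k
    have e2 : ((l.pj.vv Q).chg l.V e he).cellv (r / e) k = (l.pj.vv Q).cellv r k := by
      unfold VV.cellv
      rw [chg_dl, mul_div_cancel₀ _ he.ne']
      rfl
    rw [e2]
    show (frb (l k).T (l k).V e he).map ((l k).p.map (fc (Setoid.ker (Q.cellv r k)))) = _
    rw [vv_cellv]
    rfl
  rw [e1]
  exact h3

/-- the cells of the point are known to the cells of the coordinates of a frame -/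
theorem gz_cell {s : MSys S M E ι} {l : Lab S} {La : Fin M → ℝ} {c e : ℝ} {he : 0 < e} {f : Frm s.Q l La}
    {t : MSys (l.ovr e he) M E' ι} (hG : Gz s l c e he f.X t) (hc : 0 ≤ c) (hce : c + e ≤ 1) (hLa : ∀ j, c ≤ La j)
    {κ : ℕ} (hκ : ∀ k ω j, (f.P k ω j).totalDegree ≤ κ) {b : ℝ} (hb : b ≤ 1) :
    PLe (l.up e he (fun k => fc (Setoid.ker (s.Q.cellv (c + e * b) k)))) (fun k => fc (Setoid.ker (t.Q.cellv b k))) := by
  obtain ⟨Kc, hKc, hcf⟩ := f.bd
  obtain ⟨Kp, hKp, hpt⟩ := f.pt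
  obtain ⟨Kx, hKx', hx⟩ := f.X.bd
  have hKx : S.Sub Kx := (Pool.Agent.Helper3.LF.sp_Sub l).mp hKx'
  obtain ⟨Kt, hKt, hgt⟩ := hG.pt
  obtain ⟨L, hL⟩ : ∃ L : ℕ → ℝ, L = fun k => ((κ : ℝ) + 1) ^ M * Kc k * (κ * (Kx k + 1) ^ κ) := ⟨_, rfl⟩
  have hLS : S.Sub L := by rw [hL]; exact Pool.Agent.Helper36.AM.Sub_L hKc hKx M κ
  have hD : S.Sub (fun k => (1 + L k) * (2 * Kt k + 1) + 2 * Kp k) :=
    ((((S.Sub_const zero_le_one).add hLS).mul (((S.Sub_const zero_le_two).mul hKt).add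
      (S.Sub_const zero_le_one))).add ((S.Sub_const zero_le_two).mul hKp))
  refine up_cell_le s.Q l he t.Q (c + e * b) b ⟨_, hD, ?_⟩
  filter_upwards [hcf, hpt, hx, hgt, f.fn, hKc.1, hKx.1, hKt.1, hKp.1] with k c1 c2 c3 c4 c5 c6 c7 c8 c9
  intro ω ω' a a' z w hq j
  have hL0 : 0 ≤ L k := by rw [hL]; positivity
  have hbe : e * b ≤ e := by nlinarith
  have hX : ∀ i, |f.X.v k ω i - f.X.v k ω' i| ≤ (2 * Kt k + 1) * S.dl (e * b) k := by
    intro i
    have d1 := c4 ω a i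
    have d2 := c4 ω' a' i
    have d3 := hq i
    have d4 : Kt k * S.dl e k ≤ Kt k * S.dl (e * b) k := mul_le_mul_of_nonneg_left (S.dl_anti hbe k) c8
    rw [abs_le] at *
    constructor <;> linarith [d1.1, d1.2, d2.1, d2.2, d3.1, d3.2]
  have hP : f.P k ω = f.P k ω' := c5 ω ω' a a' z w
  obtain ⟨U, hU⟩ : ∃ U : Fin M → ℝ, U = fun i => S.dl (La i) k * f.X.v k ω i := ⟨_, rfl⟩
  obtain ⟨U', hU'⟩ : ∃ U' : Fin M → ℝ, U' = fun i => S.dl (La i) k * f.X.v k ω' i := ⟨_, rfl⟩
  have hdi : ∀ i, S.dl (La i) k ≤ 1 := fun i => by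
    rw [← S.dl_zero k]
    exact S.dl_anti (hc.trans (hLa i)) k
  have hUU : ∀ i, |U i - U' i| ≤ (2 * Kt k + 1) * S.dl (c + e * b) k := by
    intro i
    rw [hU, hU']
    show |S.dl (La i) k * f.X.v k ω i - S.dl (La i) k * f.X.v k ω' i| ≤ _
    rw [← mul_sub, abs_mul, abs_of_pos (S.dl_pos _ _)]
    have d1 : S.dl (La i) k ≤ S.dl c k := S.dl_anti (hLa i) k
    have d2 : S.dl (c + e * b) k = S.dl c k * S.dl (e * b) k := Sp.dl_add S _ _ _
    rw [d2]
    have d3 := mul_le_mul d1 (hX i) (abs_nonneg _) (S.dl_pos c k).le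
    refine d3.trans (le_of_eq ?_)
    ring
  have hUb : ∀ i, |U i| ≤ Kx k + 1 := fun i => by
    rw [hU]
    show |S.dl (La i) k * f.X.v k ω i| ≤ _
    rw [abs_mul, abs_of_pos (S.dl_pos _ _)]
    have := mul_le_mul (hdi i) (c3 ω a i) (abs_nonneg _) zero_le_one
    linarith
  have hUb' : ∀ i, |U' i| ≤ Kx k + 1 := fun i => by
    rw [hU']
    show |S.dl (La i) k * f.X.v k ω' i| ≤ _
    rw [abs_mul, abs_of_pos (S.dl_pos _ _)]
    have := mul_le_mul (hdi i) (c3 ω' a' i) (abs_nonneg _) zero_le_one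
    linarith
  have hδ := S.dl_pos (c + e * b) k
  have h1 := Pool.Agent.Helper81.MI.eval_sub_le (f.P k ω j) (hκ k ω j) U U' (Kx k + 1) (Kc k)
    ((2 * Kt k + 1) * S.dl (c + e * b) k) (by linarith) c6 (by positivity) hUb hUb' hUU (fun s => c1 ω a j s)
  have h2 : ((κ : ℝ) + 1) ^ M * Kc k * (κ * (Kx k + 1) ^ κ) = L k := by rw [hL]
  rw [h2] at h1
  have p1 := c2 ω a j
  have p2 := c2 ω' a' j
  rw [← hU] at p1
  rw [← hU', ← hP] at p2
  have p1' : |s.Q.v k ((l k).p.π ω) j - (MvPolynomial.eval U (f.P k ω j) + U j)| ≤ Kp k * S.dl 1 k := by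
    rw [hU] at p1 ⊢
    exact p1
  have p2' : |s.Q.v k ((l k).p.π ω') j - (MvPolynomial.eval U' (f.P k ω j) + U' j)| ≤ Kp k * S.dl 1 k := by
    rw [hU'] at p2 ⊢
    exact p2
  have h3 := hUU j
  have h4 : Kp k * S.dl 1 k ≤ Kp k * S.dl (c + e * b) k :=
    mul_le_mul_of_nonneg_left (S.dl_anti (by linarith) k) c9
  have h5 : (1 + L k) * (2 * Kt k + 1) * S.dl (c + e * b) k = (2 * Kt k + 1) * S.dl (c + e * b) k +
      L k * ((2 * Kt k + 1) * S.dl (c + e * b) k) := by ring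
  rw [add_mul, h5, mul_assoc (2 : ℝ)]
  rw [abs_le] at *
  constructor <;> linarith [h1.1, h1.2, p1'.1, p1'.2, p2'.1, p2'.2, h3.1, h3.2]

/-- UNIT DIRECTIONS OF ZOOMS IN FRAMES -/
theorem ud_gz {s : MSys S M E ι} {l : Lab S} {La : Fin M → ℝ} {c e : ℝ} {he : 0 < e} {f : Frm s.Q l La}
    {t : MSys (l.ovr e he) M E' ι} (hG : Gz s l c e he f.X t) (hc : 0 ≤ c) (hce : c + e ≤ 1) (hLa : ∀ j, c ≤ La j)
    {κ : ℕ} (hκ : ∀ k ω j, (f.P k ω j).totalDegree ≤ κ) {i : ι}
    (hl : Nul S (fun k => (l k).leak ((s.lf i).win c k))) {v : ℕ} (hu : Ud v s i) : Ud v t i := by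
  refine ud_zoom hu l he hc hce (fun b h0 h1 => ?_) (fun b h0 h1 => (hG.win b i h0 h1).1)
    fun b h0 h1 => gz_cell hG hc hce hLa hκ h1
  apply (hl.add ((s.lf i).win_mono (show c ≤ c + e * b by nlinarith))).of_le
    (Eventually.of_forall fun k => FLab.leak_nonneg _ _)
  exact Eventually.of_forall fun k => FLab.leak_le_leak _ _ _

/-- the charts of a frame with exponents `w j * c` have bounded degrees -/
theorem frm_deg {Q : S.VV M} {l : Lab S} {w : Fin M → ℝ} {c : ℝ} (hc : 0 ≤ c) (h1 : ∀ j, 1 ≤ w j)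
    (f : Frm Q l fun j => w j * c) : ∃ κ : ℕ, ∀ k ω j, (f.P k ω j).totalDegree ≤ κ := by
  rcases hc.eq_or_lt with e | hc
  · refine ⟨0, fun k ω j => ?_⟩
    rw [MvPolynomial.totalDegree]
    apply Finset.sup_le
    intro a ha
    by_cases h0 : a = 0
    · rw [h0]
      simp
    · exfalso
      have h2 := f.red k ω j a ha h0
      rw [← e] at h2
      simp at h2
  · obtain ⟨W, hW⟩ : ∃ W : ℝ, ∀ i, w i ≤ W := by
      obtain ⟨W, hW⟩ := (Set.finite_range w).bddAbove
      exact ⟨W, fun i => hW ⟨i, rfl⟩⟩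
    exact ⟨_, fun k ω j => f.deg hc h1 hW k ω j⟩

/-- INV(v) IS CLOSED UNDER THE ZOOMS OF THE CLASSES `D w m` -/
theorem inv_gzf {s : MSys S M E ι} {w : Fin M → ℝ} (hw : ∀ j, 1 ≤ w j) {c e : ℝ} (he : 0 < e) (hc : 0 ≤ c)
    (hce : c + e ≤ 1) {l : Lab S} (f : Frm s.Q l fun j => w j * c) (hl : TLb s c l) {t : MSys (l.ovr e he) M E' ι}
    (hG : Gzf s l f c e he t) {v : ℕ} (h : Inv v s) : Inv v t := by
  obtain ⟨κ, hκ⟩ := frm_deg hc hw f
  exact ⟨h.1, fun i => ud_gz hG.toGz hc hce (fun j => by nlinarith [hw j]) hκ (hl i) (h.2 i)⟩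

end

end Pool.Agent.Helper55.INV
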