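import Pool.Agent.Helper55.INV.Seg
import Pool.Agent.Helper49.KL.Core
import Pool.Agent.Helper84.MT.Fis
import Pool.Agent.Helper84.MT.Leaf0

/-! COMPARISON OF THE CHART OF A LEAF AND OF THE ROWS: if the rows are bi-Lipschitz at the finest scale then in a small
cell of the parameter the chart is known to the values of the rows. Deterministic statement at one point. -/

set_option autoImplicit false

namespace Pool.Agent.Helper55.INV

open Finset MvPolynomial Pool.Agent.Helper84.MT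
open Pool.Agent.Helper49.KL (Cub)

noncomputable section

/-- the data at one point -/
structure PtD (e M κ D : ℕ) where
  al : ℕ → Set ((Fin e → ℝ) → ℝ)
  Yc : Fin e → ℝ
  alg : Alg e Yc al
  F : (Fin e → ℝ) → Fin M → ℝ
  crF : ∀ j, (fun y => F y j) ∈ al 1
  Kb : ℝ
  Kb0 : 0 ≤ Kb
  seg : ∀ f ∈ al (max D (max 1 κ)), ∀ y z : Fin e → ℝ, (∀ i, |y i - Yc i| ≤ 1) → (∀ i, |z i - Yc i| ≤ 1) →
    BmS Kb (fun u => f (fun i => y i + u * (z i - y i)))
  Kl : ℝ
  Kl0 : 0 ≤ Kl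
  lip : ∀ y z : Fin e → ℝ, (∀ i, |y i - Yc i| ≤ 1) → (∀ i, |z i - Yc i| ≤ 1) → ∀ j,
    |F y j - F z j| ≤ Kl * ∑ i, |y i - z i|
  d : ℝ
  d0 : 0 < d
  d1 : d ≤ 1
  crn : Fin e → ℝ
  Yp : Fin e → ℝ
  hYp : ∀ i, Yc i = crn i + d * Yp i
  Yp1 : ∀ i, |Yp i| ≤ 1
  p : Fin M → MvPolynomial (Fin M) ℝ
  pdeg : ∀ j, (p j).totalDegree ≤ D
  G : Fin M → MvPolynomial (Fin e) ℝ
  Gdeg : ∀ j, (G j).totalDegree ≤ κ
  H : Fin M → MvPolynomial (Fin e) ℝ
  Hdeg : ∀ j, (H j).totalDegree ≤ κ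
  K : ℝ
  K0 : 0 ≤ K
  Gcf : ∀ j a, |(G j).coeff a| ≤ K
  Hcf : ∀ j a, |(H j).coeff a| ≤ K
  η : ℝ
  η0 : 0 ≤ η
  cube : ∀ y : Fin e → ℝ, (∀ a, |y a - Yp a| < 1) → ∀ j, |eval (F fun a => crn a + d * y a) (p j) - eval y (G j)| ≤ K * η
  cubH : ∀ y : Fin e → ℝ, (∀ a, |y a - Yp a| < 1) → ∀ j,
    |d⁻¹ * ((F fun a => crn a + d * y a) j - F crn j) - eval y (H j)| ≤ K * η
  q : Fin M → ℝ
  ρ : ℝ
  ρ0 : 0 < ρ
  ρd : ρ ≤ d
  ptQ : ∀ j, |q j - F Yc j| ≤ K * ρ
  W : ℝ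
  W1 : 1 ≤ W
  bil : ∀ y y' : Fin M → ℝ, Cub q ((K + Kl * e) * ρ) y → Cub q ((K + Kl * e) * ρ) y' →
    (∑ a, |y' a - y a|) ≤ d * W * ∑ i, |eval y' (p i) - eval y (p i)|

namespace PtD

variable {e M κ D : ℕ} (x : PtD e M κ D)

theorem aff_mem (i : Fin e) : (fun y : Fin e → ℝ => (y i - x.crn i) / x.d) ∈ x.al 1 := by
  have h1 := x.alg.smul (x.alg.sub (x.alg.crd i) (x.alg.const' 1 (x.crn i))) x.d⁻¹
  have e1 : (fun y : Fin e → ℝ => x.d⁻¹ * (y i - x.crn i)) = fun y => (y i - x.crn i) / x.d := by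
    funext y
    rw [div_eq_inv_mul]
  rwa [e1] at h1

/-- the difference of the row and of its Taylor polynomial -/
theorem mem_row (j : Fin M) : (fun y : Fin e → ℝ => eval (x.F y) (x.p j) -
    eval (fun i => (y i - x.crn i) / x.d) (x.G j)) ∈ x.al (max D (max 1 κ)) := by
  apply x.alg.sub
  · have h1 := x.alg.eval (fun j y => x.F y j) x.crF (x.p j) (x.pdeg j)
    rw [one_mul] at h1
    exact x.alg.mono _ _ (le_max_left _ _) h1
  · have h1 := x.alg.eval (fun i y => (y i - x.crn i) / x.d) x.aff_mem (x.G j) (x.Gdeg j)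
    rw [one_mul] at h1
    exact x.alg.mono _ _ ((le_max_right _ _).trans (le_max_right _ _)) h1

theorem mem_chart (j : Fin M) : (fun y : Fin e → ℝ => x.d⁻¹ * (x.F y j - x.F x.crn j) -
    eval (fun i => (y i - x.crn i) / x.d) (x.H j)) ∈ x.al (max D (max 1 κ)) := by
  apply x.alg.sub
  · exact x.alg.mono _ _ ((le_max_left _ _).trans (le_max_right _ _))
      (x.alg.smul (x.alg.sub (x.crF j) (x.alg.const' 1 _)) _)
  · have h1 := x.alg.eval (fun i y => (y i - x.crn i) / x.d) x.aff_mem (x.H j) (x.Hdeg j)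
    rw [one_mul] at h1
    exact x.alg.mono _ _ ((le_max_right _ _).trans (le_max_right _ _)) h1

end PtD

/-- COMPARISON AT ONE POINT -/
theorem pt_cmp (e M κ D : ℕ) : ∃ C : ℝ, 1 ≤ C ∧ ∀ (x : PtD e M κ D) (y2 : Fin e → ℝ) (β δ : ℝ), 0 ≤ β → 2 * β ≤ 1 →
    (∀ a, |y2 a - x.Yp a| ≤ β) → (∀ j, |eval y2 (x.G j) - eval x.Yp (x.G j)| ≤ δ) → ∀ j,
      |(x.F fun a => x.crn a + x.d * y2 a) j - x.F x.Yc j| ≤ x.d * (3 * M * x.W * (δ +
        C * (x.K + 1) * (x.Kb + 1) * ((2 * β) ^ 2 + 2 * β * (x.ρ / x.d + x.η))) + 2 * x.K * x.η) := by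
  obtain ⟨C₀, hC0, hpl⟩ := poly_lin κ
  refine ⟨C₀ * (((κ : ℝ) + 1) ^ e * 2 ^ κ) + 1, by
    have : 0 ≤ C₀ * (((κ : ℝ) + 1) ^ e * 2 ^ κ) := by positivity
    linarith, fun x y2 β δ hβ hβ1 hy2 hδ j => ?_⟩
  set C : ℝ := C₀ * (((κ : ℝ) + 1) ^ e * 2 ^ κ) + 1 with hC
  set B : ℝ := C * (x.K + 1) * (x.Kb + 1) with hB
  have hK0 := x.K0
  have hKb0 := x.Kb0
  have hC1 : 1 ≤ C := by
    rw [hC]
    have : 0 ≤ C₀ * (((κ : ℝ) + 1) ^ e * 2 ^ κ) := by positivity
    linarith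
  have hB0 : 0 ≤ B := by positivity
  have hB1 : C₀ * (((κ : ℝ) + 1) ^ e * x.K * 2 ^ κ) ≤ B := by
    have h1 : C₀ * (((κ : ℝ) + 1) ^ e * x.K * 2 ^ κ) = (C₀ * (((κ : ℝ) + 1) ^ e * 2 ^ κ)) * x.K * 1 := by ring
    rw [h1, hB]
    apply mul_le_mul _ (by linarith) zero_le_one (by positivity)
    apply mul_le_mul (by rw [hC]; linarith) (by linarith) hK0 (by positivity)
  have hB2 : x.Kb * x.K ≤ B := by
    have h2 : x.Kb * x.K ≤ (x.K + 1) * (x.Kb + 1) := by nlinarith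
    have h3 : (x.K + 1) * (x.Kb + 1) ≤ C * ((x.K + 1) * (x.Kb + 1)) := le_mul_of_one_le_left (by positivity) hC1
    rw [hB, mul_assoc]
    exact h2.trans h3
  have hd := x.d0
  have hd1 := x.d1
  have hη := x.η0
  have hρ := x.ρ0
  have hKl := x.Kl0
  -- the size of the increment
  obtain ⟨h0, hh0, hh1, hh2⟩ : ∃ h0 : ℝ, 0 < h0 ∧ (∀ a, |y2 a - x.Yp a| ≤ h0) ∧ (h0 ≤ β ∨ y2 = x.Yp) := by
    rcases hβ.eq_or_lt with hz | hβ
    · refine ⟨1, one_pos, fun a => (hy2 a).trans (by linarith), Or.inr (funext fun a => ?_)⟩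
      have := hy2 a
      rw [← hz] at this
      have h3 := abs_eq_zero.mp (le_antisymm this (abs_nonneg _))
      linarith
    · exact ⟨β, hβ, hy2, Or.inl le_rfl⟩
  rcases hh2 with hh2 | hh2
  swap
  · have e1 : (fun a => x.crn a + x.d * y2 a) = x.Yc := by
      funext a
      rw [hh2, x.hYp a]
    rw [e1, sub_self, abs_zero]
    have hδ0 : 0 ≤ δ := (abs_nonneg _).trans (hδ j)
    have hW := x.W1
    positivity
  set g : Fin e → ℝ := fun a => (y2 a - x.Yp a) / (2 * h0) with hg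
  have hg1 : ∀ a, |g a| ≤ 1 / 2 := by
    intro a
    rw [hg]
    show |(y2 a - x.Yp a) / (2 * h0)| ≤ 1 / 2
    rw [abs_div, abs_of_pos (show (0 : ℝ) < 2 * h0 by positivity), div_le_iff₀ (by positivity)]
    linarith [hh1 a]
  set t1 : ℝ := 2 * h0 with ht1
  have ht10 : 0 ≤ t1 := by positivity
  have ht11 : t1 ≤ 1 := by linarith
  set t0 : ℝ := x.ρ / x.d with ht0
  have ht00 : 0 < t0 := by positivity
  have ht01 : t0 ≤ 1 := by
    rw [ht0, div_le_one hd]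
    exact x.ρd
  have hin : ∀ t : ℝ, 0 ≤ t → t ≤ 1 → ∀ a, |x.Yp a + t * g a - x.Yp a| < 1 := by
    intro t h1 h2 a
    rw [add_sub_cancel_left, abs_mul, abs_of_nonneg h1]
    nlinarith [hg1 a, abs_nonneg (g a)]
  have hsz : ∀ t : ℝ, 0 ≤ t → t ≤ 1 → ∀ a, |x.Yp a + t * g a| ≤ 2 := by
    intro t h1 h2 a
    refine (abs_add_le _ _).trans ?_
    rw [abs_mul, abs_of_nonneg h1]
    nlinarith [hg1 a, abs_nonneg (g a), x.Yp1 a]
  -- the curves
  have lin : ∀ P : MvPolynomial (Fin e) ℝ, P.totalDegree ≤ κ → (∀ a, |P.coeff a| ≤ x.K) → ∃ a : ℝ, ∀ t : ℝ, 0 ≤ t →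
      t ≤ 1 → |eval (fun k => x.Yp k + t * g k) P - eval (fun k => x.Yp k + 0 * g k) P - t * a| ≤ B * t ^ 2 := by
    intro P hP hPc
    obtain ⟨a, ha⟩ := hpl (lnp x.Yp g P) (((κ : ℝ) + 1) ^ e * x.K * 2 ^ κ) ((lnp_deg _ _ _).trans hP) (by positivity)
      (fun s s0 s1 => by
        rw [lnp_eval]
        have h1 := eval_le_of_coeff P hP x.K 2 hK0 (by norm_num) hPc (fun k => x.Yp k + s * g k) (hsz s s0 s1)
        refine h1.trans (le_of_eq ?_)
        ring)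
    refine ⟨a, fun t t0 t1 => ?_⟩
    have h1 := ha t t0 t1
    rw [lnp_eval, lnp_eval] at h1
    exact h1.trans (mul_le_mul_of_nonneg_right hB1 (by positivity))
  choose aτ haτ using fun j => lin (x.G j) (x.Gdeg j) (x.Gcf j)
  choose aΘ haΘ using fun j => lin (x.H j) (x.Hdeg j) (x.Hcf j)
  -- the segment
  set z : Fin e → ℝ := fun a => x.Yc a + x.d * g a with hz
  have hz1 : ∀ a, |z a - x.Yc a| ≤ 1 := by
    intro a
    rw [hz]
    show |x.Yc a + x.d * g a - x.Yc a| ≤ 1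
    rw [add_sub_cancel_left, abs_mul, abs_of_pos hd]
    nlinarith [hg1 a, abs_nonneg (g a)]
  have hYY : ∀ a, |x.Yc a - x.Yc a| ≤ 1 := fun a => by rw [sub_self, abs_zero]; exact zero_le_one
  have hzt : ∀ t : ℝ, (fun i => x.Yc i + t * (z i - x.Yc i)) = fun a => x.crn a + x.d * (x.Yp a + t * g a) := by
    intro t
    funext a
    rw [hz]
    show x.Yc a + t * (x.Yc a + x.d * g a - x.Yc a) = _
    rw [x.hYp a]
    ring
  have hdiv : ∀ t : ℝ, (fun i => (x.Yc i + t * (z i - x.Yc i) - x.crn i) / x.d) = fun k => x.Yp k + t * g k := by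
    intro t
    funext a
    have h1 := congrFun (hzt t) a
    beta_reduce at h1
    rw [h1]
    field_simp
    ring
  have h00 : (0 : ℝ) ∈ Set.Icc (0 : ℝ) 1 := ⟨le_rfl, zero_le_one⟩
  have ht0m : t0 ∈ Set.Icc (0 : ℝ) 1 := ⟨ht00.le, ht01⟩
  have hc3 : ∀ j, |(eval (x.F fun a => x.crn a + x.d * (x.Yp a + t0 * g a)) (x.p j) -
      eval (fun k => x.Yp k + t0 * g k) (x.G j)) - (eval (x.F fun a => x.crn a + x.d * (x.Yp a + 0 * g a)) (x.p j) -
        eval (fun k => x.Yp k + 0 * g k) (x.G j))| ≤ B * t0 * x.η := by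
    intro j
    have h1 := x.seg _ (x.mem_row j) x.Yc z hYY hz1 (x.K * x.η) (fun u hu => by
      beta_reduce
      rw [hzt u, hdiv u]
      exact x.cube _ (hin u hu.1 hu.2) j) t0 ht0m 0 h00
    beta_reduce at h1
    rw [hzt t0, hzt 0, hdiv t0, hdiv 0, sub_zero, abs_of_pos ht00] at h1
    refine h1.trans ?_
    have h2 : x.Kb * t0 * (x.K * x.η) = (x.Kb * x.K) * (t0 * x.η) := by ring
    rw [h2, mul_assoc B]
    exact mul_le_mul_of_nonneg_right hB2 (by positivity)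
  have hc4 : ∀ j, |(x.d⁻¹ * ((x.F fun a => x.crn a + x.d * (x.Yp a + t0 * g a)) j - x.F x.crn j) -
      eval (fun k => x.Yp k + t0 * g k) (x.H j)) - (x.d⁻¹ * ((x.F fun a => x.crn a + x.d * (x.Yp a + 0 * g a)) j -
        x.F x.crn j) - eval (fun k => x.Yp k + 0 * g k) (x.H j))| ≤ B * t0 * x.η := by
    intro j
    have h1 := x.seg _ (x.mem_chart j) x.Yc z hYY hz1 (x.K * x.η) (fun u hu => by
      beta_reduce
      rw [hzt u, hdiv u]
      exact x.cubH _ (hin u hu.1 hu.2) j) t0 ht0m 0 h00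
    beta_reduce at h1
    rw [hzt t0, hzt 0, hdiv t0, hdiv 0, sub_zero, abs_of_pos ht00] at h1
    refine h1.trans ?_
    have h2 : x.Kb * t0 * (x.K * x.η) = (x.Kb * x.K) * (t0 * x.η) := by ring
    rw [h2, mul_assoc B]
    exact mul_le_mul_of_nonneg_right hB2 (by positivity)
  -- the bi-Lipschitz bound
  have e0 : (fun a => x.crn a + x.d * (x.Yp a + 0 * g a)) = x.Yc := by
    funext a
    rw [x.hYp a]
    ring
  have hc5 : (∑ j, |x.d⁻¹ * ((x.F fun a => x.crn a + x.d * (x.Yp a + t0 * g a)) j - x.F x.crn j) -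
      x.d⁻¹ * ((x.F fun a => x.crn a + x.d * (x.Yp a + 0 * g a)) j - x.F x.crn j)|) ≤ x.W *
        ∑ j, |eval (x.F fun a => x.crn a + x.d * (x.Yp a + t0 * g a)) (x.p j) -
          eval (x.F fun a => x.crn a + x.d * (x.Yp a + 0 * g a)) (x.p j)| := by
    have hY0 : Cub x.q ((x.K + x.Kl * e) * x.ρ) (x.F fun a => x.crn a + x.d * (x.Yp a + 0 * g a)) := by
      intro i
      rw [e0, abs_sub_comm]
      refine (x.ptQ i).trans ?_
      have : 0 ≤ x.Kl * e * x.ρ := by positivity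
      nlinarith
    have hYt : Cub x.q ((x.K + x.Kl * e) * x.ρ) (x.F fun a => x.crn a + x.d * (x.Yp a + t0 * g a)) := by
      intro i
      have h1 : ∀ a, |(fun a => x.crn a + x.d * (x.Yp a + t0 * g a)) a - x.Yc a| ≤ x.ρ := by
        intro a
        show |x.crn a + x.d * (x.Yp a + t0 * g a) - x.Yc a| ≤ x.ρ
        have e2 : x.crn a + x.d * (x.Yp a + t0 * g a) - x.Yc a = (x.d * t0) * g a := by
          rw [x.hYp a]
          ring
        have e3 : x.d * t0 = x.ρ := by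
          rw [ht0]
          field_simp
        rw [e2, e3, abs_mul, abs_of_pos hρ]
        nlinarith [hg1 a, abs_nonneg (g a)]
      have h2 := x.lip (fun a => x.crn a + x.d * (x.Yp a + t0 * g a)) x.Yc (fun a => (h1 a).trans (x.ρd.trans hd1)) hYY i
      have h3 : ∑ a, |(fun a => x.crn a + x.d * (x.Yp a + t0 * g a)) a - x.Yc a| ≤ e * x.ρ := by
        refine (Finset.sum_le_sum fun a _ => h1 a).trans (le_of_eq ?_)
        rw [Finset.sum_const, Finset.card_univ, Fintype.card_fin, nsmul_eq_mul]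
      have h4 := mul_le_mul_of_nonneg_left h3 hKl
      have h5 := x.ptQ i
      have e4 : (x.F fun a => x.crn a + x.d * (x.Yp a + t0 * g a)) i - x.q i =
          ((x.F fun a => x.crn a + x.d * (x.Yp a + t0 * g a)) i - x.F x.Yc i) - (x.q i - x.F x.Yc i) := by ring
      rw [e4]
      refine (abs_sub _ _).trans ?_
      have e5 : (x.K + x.Kl * e) * x.ρ = x.Kl * (e * x.ρ) + x.K * x.ρ := by ring
      rw [e5]
      exact add_le_add (h2.trans h4) h5
    have h6 := x.bil _ _ hY0 hYt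
    have e6 : ∀ j, |x.d⁻¹ * ((x.F fun a => x.crn a + x.d * (x.Yp a + t0 * g a)) j - x.F x.crn j) -
      x.d⁻¹ * ((x.F fun a => x.crn a + x.d * (x.Yp a + 0 * g a)) j - x.F x.crn j)| =
        x.d⁻¹ * |(x.F fun a => x.crn a + x.d * (x.Yp a + t0 * g a)) j -
          (x.F fun a => x.crn a + x.d * (x.Yp a + 0 * g a)) j| := by
      intro j
      rw [← mul_sub, abs_mul, abs_of_pos (inv_pos.mpr hd)]
      congr 2
      ring
    rw [Finset.sum_congr rfl fun j _ => e6 j, ← Finset.mul_sum, inv_mul_le_iff₀ hd, ← mul_assoc]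
    exact h6
  have ht1p : 0 < t1 := by positivity
  have hta : ∀ a, t1 * g a = y2 a - x.Yp a := by
    intro a
    rw [hg]
    show t1 * ((y2 a - x.Yp a) / t1) = _
    exact mul_div_cancel₀ _ ht1p.ne'
  have hc6 : ∀ j, |eval (fun k => x.Yp k + t1 * g k) (x.G j) - eval (fun k => x.Yp k + 0 * g k) (x.G j)| ≤ δ := by
    intro j
    have e1 : (fun k => x.Yp k + t1 * g k) = y2 := by
      funext a
      rw [hta a]
      ring
    have e2 : (fun k => x.Yp k + 0 * g k) = x.Yp := by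
      funext a
      ring
    rw [e1, e2]
    exact hδ j
  have hfin := seg_cmp (N := M)
    (φ := fun j t => eval (x.F fun a => x.crn a + x.d * (x.Yp a + t * g a)) (x.p j))
    (τ := fun j t => eval (fun k => x.Yp k + t * g k) (x.G j))
    (Φ := fun j t => x.d⁻¹ * ((x.F fun a => x.crn a + x.d * (x.Yp a + t * g a)) j - x.F x.crn j))
    (Θ := fun j t => eval (fun k => x.Yp k + t * g k) (x.H j)) (a := aτ) (A := aΘ) hB0 hη ht00 ht01 ht10 ht11 x.W1
    haτ haΘ hc3 hc4 hc5 hc6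
  beta_reduce at hfin
  -- the end
  have hj : |eval (fun k => x.Yp k + t1 * g k) (x.H j) - eval (fun k => x.Yp k + 0 * g k) (x.H j)| ≤
      3 * M * x.W * (δ + B * (t1 ^ 2 + t1 * (t0 + x.η))) :=
    (Finset.single_le_sum (f := fun j => |eval (fun k => x.Yp k + t1 * g k) (x.H j) -
      eval (fun k => x.Yp k + 0 * g k) (x.H j)|) (fun _ _ => abs_nonneg _) (Finset.mem_univ j)).trans hfin
  have k1 := x.cubH _ (hin t1 ht10 ht11) j
  have k0 := x.cubH _ (hin 0 le_rfl zero_le_one) j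
  rw [e0] at k0
  have e1 : (fun a => x.crn a + x.d * (x.Yp a + t1 * g a)) = fun a => x.crn a + x.d * y2 a := by
    funext a
    rw [hta a]
    ring
  rw [e1] at k1
  have e7 : (x.F fun a => x.crn a + x.d * y2 a) j - x.F x.Yc j = x.d * ((x.d⁻¹ * ((x.F fun a => x.crn a + x.d * y2 a) j -
      x.F x.crn j)) - (x.d⁻¹ * (x.F x.Yc j - x.F x.crn j))) := by
    field_simp
    ring
  rw [e7, abs_mul, abs_of_pos hd]
  apply mul_le_mul_of_nonneg_left _ hd.le
  have hmon : 3 * M * x.W * (δ + B * (t1 ^ 2 + t1 * (t0 + x.η))) ≤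
      3 * M * x.W * (δ + B * ((2 * β) ^ 2 + 2 * β * (t0 + x.η))) := by
    have hW := x.W1
    apply mul_le_mul_of_nonneg_left _ (by positivity)
    have h1 : t1 ≤ 2 * β := by linarith
    have h2 : t1 ^ 2 ≤ (2 * β) ^ 2 := pow_le_pow_left₀ ht10 h1 2
    have h3 : t1 * (t0 + x.η) ≤ 2 * β * (t0 + x.η) := mul_le_mul_of_nonneg_right h1 (by positivity)
    have h4 := mul_le_mul_of_nonneg_left (add_le_add h2 h3) hB0
    linarith
  have e8 : ∀ A₁ A₀ B₁ B₀ : ℝ, A₁ - A₀ = (B₁ - B₀) + ((A₁ - B₁) - (A₀ - B₀)) := fun _ _ _ _ => by ring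
  rw [e8 _ _ (eval (fun k => x.Yp k + t1 * g k) (x.H j)) (eval (fun k => x.Yp k + 0 * g k) (x.H j))]
  refine (abs_add_le _ _).trans (add_le_add (hj.trans hmon) ?_)
  refine (abs_sub _ _).trans ?_
  linarith

end

end Pool.Agent.Helper55.INV
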