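import Pool.Agent.Helper55.INV.Opt
import Pool.Agent.Helper55.INV.Ptc
import Pool.Agent.Helper55.INV.Gz
import Pool.Agent.Helper55.INV.Chn

/-! UNIT DIRECTIONS OF DEEP ZOOMS IN ROWS: given the window `b` of a type of the zoom, the cells of level `c + u b' - ε` of
the old point are known to the cells of level `b'` of the rows, if `b' ≤ 2 b` and the rows are bi-Lipschitz at the finest
scale. -/

set_option autoImplicit false

namespace Pool.Agent.Helper55.INV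

open Finset Filter Topology Matrix Pool.Agent.Helper69.RK Pool.Agent.Helper31.EC Pool.Agent.Helper31.EC.Sp
open Pool.Agent.Helper40.EL Pool.Agent.Helper89.LX Pool.Agent.Helper3.LF Pool.Agent.Helper84.MT
open Pool.Agent.Helper7.GZ Pool.Agent.Helper7.RD Pool.Agent.Helper89.TAY
open Pool.Agent.Helper49.MD
open Pool.Agent.Helper29.MX
open Pool.Agent.Helper3.MX (UB_cell)
open Pool.Agent.Helper49.KL (Cub)

noncomputable section

variable {S : Sp} {M : ℕ} {E : ℕ → ℕ} {ι : Type}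

/-- cells of the old point on typical events -/
theorem up_cell_typ (Q : S.VV M) (Z : ZU S) (r : ℝ) (B : ∀ k, Setoid (Z.l k).T.Ω) (K : ℕ → ℝ) (hK : S.Sub K)
    {A : ∀ k, (Z.l k).T.Ω → Prop} (hA : Typ (S := Z.sp) A)
    (hh : ∀ᶠ k in UF, ∀ ω ω' : (Z.l k).T.Ω, (Z.l k).T.μ ω ≠ 0 → (Z.l k).T.μ ω' ≠ 0 → A k ω → A k ω' →
      (Z.sp.F k).Z ω ω' → B k ω ω' → ∀ i, |Q.v k ((Z.l k).p.π ω) i - Q.v k ((Z.l k).p.π ω') i| ≤ K k * S.dl r k) :
    PLe (S := Z.sp) (Z.l.up Z.u Z.hu (fun k => fc (Setoid.ker (Q.cellv r k))))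
      (fun k => fc (F := Z.sp.F k) (B k : Setoid (Z.sp.F k).Ω)) := by
  have h3 : PLe (S := Z.sp) (fun k => fc (Setoid.ker (((Z.l.pj.vv Q).chg Z.l.V Z.u Z.hu).cellv (r / Z.u) k)))
      (fun k => fc (F := Z.sp.F k) (B k : Setoid (Z.sp.F k).Ω)) := by
    refine PLe_cell_typ (S := Z.sp) ((Z.l.pj.vv Q).chg Z.l.V Z.u Z.hu) (r / Z.u) B K (Z.Sub_sp.1 hK) hA ?_
    filter_upwards [hh] with k hk
    intro (ω : (Z.l k).T.Ω) (ω' : (Z.l k).T.Ω) a a' c c' z w i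
    have h4 : Z.sp.dl (r / Z.u) k = S.dl r k := by
      rw [Z.sp_dl', mul_div_cancel₀ _ Z.hu.ne']
    rw [h4]
    exact hk ω ω' a a' c c' z w i
  have e1 : (Z.l.up Z.u Z.hu (fun k => fc (Setoid.ker (Q.cellv r k)))) =
      fun k => fc (F := Z.sp.F k) (Setoid.ker (((Z.l.pj.vv Q).chg Z.l.V Z.u Z.hu).cellv (r / Z.u) k)) := by
    funext k
    have e2 : ((Z.l.pj.vv Q).chg Z.l.V Z.u Z.hu).cellv (r / Z.u) k = (Z.l.pj.vv Q).cellv r k := by
      unfold VV.cellv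
      rw [chg_dl, mul_div_cancel₀ _ Z.hu.ne']
      rfl
    rw [e2]
    show (frb (Z.l k).T (Z.l k).V Z.u Z.hu).map ((Z.l k).p.map (fc (Setoid.ker (Q.cellv r k)))) = _
    rw [vv_cellv]
    rfl
  rw [e1]
  exact h3

/-- the rescaled parameter -/
theorem par_eq {Q : S.VV M} (l : Leaf S Q E) (Z : ZU S) (k : ℕ) (ω : (Z.l k).T.Ω) (a : Fin l.e) :
    l.Y.v k ((Z.l k).p.π ω) a = crn l Z.c k ((Z.l k).p.π ω) a + S.dl Z.c k * (Z.fr l.Y).v k ω a := by
  have hd := (S.dl_pos Z.c k).ne'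
  rw [Z.fr_v]
  unfold crn
  field_simp
  ring

theorem sub_sum (S : Sp) {M : ℕ} {K : Fin M → ℕ → ℝ} (h : ∀ j, S.Sub (K j)) : S.Sub (fun k => ∑ j, K j k) := by
  have h2 : ∀ s : Finset (Fin M), S.Sub (fun k => ∑ j ∈ s, K j k) := by
    intro s
    induction s using Finset.induction_on with
    | empty =>
      simp only [Finset.sum_empty]
      exact S.Sub_const le_rfl
    | insert a s ha ih =>
      simp only [Finset.sum_insert ha]
      exact (h a).add ih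
  exact h2 _

/-- THE TAYLOR POLYNOMIALS OF THE CHART, rescaled -/
theorem chart_tay {Q : S.VV M} (l : Leaf S Q E) (Z : ZU S) (hc : 0 < Z.c)
    (hl : Nul S fun k => (Z.l k).leak (l.win Z.c k)) {κ : ℕ} (hκ : Z.c + Z.u ≤ Z.c * (κ + 1)) :
    ∃ (H : ∀ k, (Z.l k).T.Ω → Fin M → MvPolynomial (Fin l.e) ℝ) (K : ℕ → ℝ),
      (∀ k ω j, (H k ω j).totalDegree ≤ κ) ∧ S.Sub K ∧ Typ (S := Z.sp) (fun k (ω : (Z.l k).T.Ω) =>
        (∀ j a, |(H k ω j).coeff a| ≤ K k) ∧ ∀ y : Fin l.e → ℝ, (∀ a, |y a - (Z.fr l.Y).v k ω a| < 1) → ∀ j,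
          |(S.dl Z.c k)⁻¹ * ((l.F k ((Z.l k).p.π ω) fun a => crn l Z.c k ((Z.l k).p.π ω) a + S.dl Z.c k * y a) j -
            l.F k ((Z.l k).p.π ω) (crn l Z.c k ((Z.l k).p.π ω)) j) - MvPolynomial.eval y (H k ω j)| ≤
              K k * S.dl Z.u k) := by
  classical
  have hc1 : Z.c < 1 := by linarith [Z.h1, Z.hu]
  obtain ⟨KF, hKF, hF⟩ := l.bd
  obtain ⟨Kl, hKl, hlip⟩ := l.lip
  have hcr : ∀ k (w : (S.F k).Ω) i, |crn l Z.c k w i - l.Y.v k w i| ≤ 1 := fun k w i =>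
    (crn_lt l Z.c k w i).le.trans (by
      rw [← S.dl_zero k]
      exact S.dl_anti Z.h0 k)
  have key : ∀ j : Fin M, ∃ G : ∀ k, (Z.l k).T.Ω → MvPolynomial (Fin l.e) ℝ, (∀ k w, (G k w).totalDegree ≤ κ) ∧
      (∀ᶠ k in UF, ∀ w w', (Z.l k).T.μ w ≠ 0 → (Z.l k).T.μ w' ≠ 0 → (Z.l k).T.Z w w' → (Z.l k).V w w' →
        l.La k ((Z.l k).p.π w) ((Z.l k).p.π w') → (∀ i, ⌊l.Y.v k ((Z.l k).p.π w) i / S.dl Z.c k⌋ =
          ⌊l.Y.v k ((Z.l k).p.π w') i / S.dl Z.c k⌋) → G k w = G k w') ∧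
      ∃ K' : ℕ → ℝ, S.Sub K' ∧ Typ (S := Z.l.sp) (fun k w => (∀ m, |(G k w).coeff m| ≤ K' k) ∧
        ∀ y : Fin l.e → ℝ, (∀ i, |y i - l.Y.v k ((Z.l k).p.π w) i| < S.dl Z.c k) →
          |(S.dl Z.c k)⁻¹ * (l.F k ((Z.l k).p.π w) y j - l.F k ((Z.l k).p.π w) (crn l Z.c k ((Z.l k).p.π w)) j) -
            MvPolynomial.eval (fun i => (y i - crn l Z.c k ((Z.l k).p.π w) i) / S.dl Z.c k) (G k w)| ≤
            K' k * S.dl Z.u k) := by
    intro j
    refine tay_leaf l hc hc1 Z.l hl (D := 1) (κ := κ)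
      (fun k w y => (S.dl Z.c k)⁻¹ * (l.F k ((Z.l k).p.π w) y j -
        l.F k ((Z.l k).p.π w) (crn l Z.c k ((Z.l k).p.π w)) j)) ?_ ?_ (Λ := Z.c) (u := Z.u) hκ
        (K₀ := fun k => 2 * KF k + Kl k * l.e)
        (((S.Sub_const zero_le_two).mul hKF).add (hKl.mul (S.Sub_const (Nat.cast_nonneg _)))) ?_ ?_
    · filter_upwards [l.alg, l.crF] with k h1 h2 w hw
      have hω := (Z.l k).p.supp w hw
      exact ⟨_, (h1 _ hω).smul ((h1 _ hω).sub (h2 _ hω j) ((h1 _ hω).const' 1 _)) _, fun y _ => rfl⟩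
    · filter_upwards [l.fn] with k h2 w w' a b z v la cc
      have h4 := h2 _ _ ((Z.l k).p.supp w a) ((Z.l k).p.supp w' b) (((Z.l k).p.hZ w w' a b).1 z) la
      have h5 : crn l Z.c k ((Z.l k).p.π w) = crn l Z.c k ((Z.l k).p.π w') := by
        funext i
        show S.dl Z.c k * _ = S.dl Z.c k * _
        rw [cc i]
      rw [h4, h5]
    · refine (Typ_true (S := Z.l.sp)).mono ?_
      filter_upwards [hF, hKF.1, hKl.1] with k h2 h3 h4 w hw _ y hy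
      have hω := (Z.l k).p.supp w hw
      have e1 : (S.dl Z.c k)⁻¹ = 2 ^ (Z.c * (S.F k).n) := by
        unfold Sp.dl
        rw [Real.rpow_neg (by norm_num), inv_inv]
      have h5 := h2 _ hω y (fun i => (hy i).le) j
      have h6 := h2 _ hω _ (hcr k _) j
      rw [abs_mul, abs_of_pos (inv_pos.mpr (S.dl_pos Z.c k)), e1, mul_comm]
      refine mul_le_mul_of_nonneg_right ((abs_sub _ _).trans ?_) (by positivity)
      have : 0 ≤ Kl k * l.e := mul_nonneg h4 (Nat.cast_nonneg _)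
      linarith
    · refine (Typ_true (S := Z.l.sp)).mono ?_
      filter_upwards [hlip, hKF.1, hKl.1] with k h2 h3 h4 w hw _
      have hω := (Z.l k).p.supp w hw
      have hd := S.dl_pos Z.c k
      have h5 := h2 _ hω (l.Y.v k ((Z.l k).p.π w)) (crn l Z.c k ((Z.l k).p.π w)) (fun i => by
        rw [sub_self, abs_zero]
        exact zero_le_one) (hcr k _) j
      have h6 : ∑ i, |l.Y.v k ((Z.l k).p.π w) i - crn l Z.c k ((Z.l k).p.π w) i| ≤ l.e * S.dl Z.c k := by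
        refine (Finset.sum_le_sum fun i _ => ?_).trans (le_of_eq ?_) (b := ∑ _i : Fin l.e, S.dl Z.c k)
        · rw [abs_sub_comm]
          exact (crn_lt l Z.c k _ i).le
        · rw [Finset.sum_const, Finset.card_univ, Fintype.card_fin, nsmul_eq_mul]
      have h7 := mul_le_mul_of_nonneg_left h6 h4
      rw [abs_mul, abs_of_pos (inv_pos.mpr hd), inv_mul_le_iff₀ hd]
      have h8 : 0 ≤ S.dl Z.c k * (2 * KF k) := by positivity
      have h9 : S.dl Z.c k * (2 * KF k + Kl k * l.e) = S.dl Z.c k * (2 * KF k) + Kl k * (l.e * S.dl Z.c k) := by ring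
      rw [h9]
      linarith
  choose G hG1 hG2 K' hK' hT using key
  have hT2 : Typ (S := Z.l.sp) (fun k w => ∀ j, ((∀ m, |(G j k w).coeff m| ≤ K' j k) ∧
        ∀ y : Fin l.e → ℝ, (∀ i, |y i - l.Y.v k ((Z.l k).p.π w) i| < S.dl Z.c k) →
          |(S.dl Z.c k)⁻¹ * (l.F k ((Z.l k).p.π w) y j - l.F k ((Z.l k).p.π w) (crn l Z.c k ((Z.l k).p.π w)) j) -
            MvPolynomial.eval (fun i => (y i - crn l Z.c k ((Z.l k).p.π w) i) / S.dl Z.c k) (G j k w)| ≤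
            K' j k * S.dl Z.u k)) := Typ_all _ hT
  have hpos : ∀ᶠ k in UF, ∀ j, 0 ≤ K' j k := eventually_all.2 fun j => (hK' j).1
  refine ⟨fun k ω j => G j k ω, fun k => ∑ j, K' j k, fun k ω j => hG1 j k ω, sub_sum S hK', ?_⟩
  refine Typ.mono (S := Z.sp) hT2 ?_
  filter_upwards [hpos] with k h0
  intro (w : (Z.l k).T.Ω) hw h2
  have hd := S.dl_pos Z.c k
  have hsum : ∀ j, K' j k ≤ ∑ j, K' j k := fun j =>
    Finset.single_le_sum (f := fun j => K' j k) (fun i _ => h0 i) (Finset.mem_univ j)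
  refine ⟨fun j a => ((h2 j).1 a).trans (hsum j), fun y hy j => ?_⟩
  have h5 := (h2 j).2 (fun i => crn l Z.c k ((Z.l k).p.π w) i + S.dl Z.c k * y i) (fun i => by
    have e1 : crn l Z.c k ((Z.l k).p.π w) i + S.dl Z.c k * y i - l.Y.v k ((Z.l k).p.π w) i =
        S.dl Z.c k * (y i - (Z.fr l.Y).v k w i) := by
      rw [par_eq l Z k w i]
      ring
    rw [e1, abs_mul, abs_of_pos hd]
    exact mul_lt_of_lt_one_right hd (hy i))
  have e2 : (fun i => (crn l Z.c k ((Z.l k).p.π w) i + S.dl Z.c k * y i - crn l Z.c k ((Z.l k).p.π w) i) /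
      S.dl Z.c k) = y := by
    funext i
    field_simp
    ring
  rw [e2] at h5
  exact h5.trans (mul_le_mul_of_nonneg_right (hsum j) (S.dl_pos Z.u k).le)

/-- THE CELLS OF THE OLD POINT ARE KNOWN TO THE CELLS OF THE ROWS, given a window of a type -/
theorem cell_rw {s : MSys S M E ι} (z : RW s M) (hlow : RLow (rpz z) z.Z.c) (hst : RStab (rpz z)) (i : ι) {b b' : ℝ}
    (hb : 0 < b) (hb1 : b' ≤ 1) (hbb : b' ≤ 2 * b) {ε : ℝ} (hε : 0 < ε) :
    PLe (S := z.Z.sp) (z.upz (fun k => fc (Setoid.ker (s.Q.cellv (z.Z.c + z.Z.u * b' - ε) k))))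
      (fun k => fc (Setoid.ker (z.X.cellv b' k)) ⊔ (z.sys.lf i).win b k) := by
  classical
  have hu := z.Z.hu
  have hc := z.hc
  have h1 := z.Z.h1
  obtain ⟨n0, hn0⟩ := exists_nat_gt (z.Z.u / z.Z.c)
  set κ : ℕ := max z.κ n0 with hκ
  have hκ' : z.Z.c + z.Z.u ≤ z.Z.c * (κ + 1) := by
    have h1 : z.Z.u < n0 * z.Z.c := (div_lt_iff₀ hc).mp hn0
    have h2 : (n0 : ℝ) ≤ κ := by exact_mod_cast le_max_right _ _
    nlinarith
  obtain ⟨H, KH, hHdeg, hKH, hH⟩ := chart_tay (s.lf i) z.Z hc (z.dm i) hκ'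
  obtain ⟨Kl, hKl, hlip⟩ := (s.lf i).lip
  obtain ⟨Kb, hKb, hseg⟩ := (s.lf i).seg (max z.D (max 1 κ))
  obtain ⟨Kp, hKp, hpt⟩ := (s.lf i).pt
  obtain ⟨K, hK⟩ : ∃ K : ℕ → ℝ, K = fun k => z.K i k + KH k + Kp k := ⟨_, rfl⟩
  have hKs : S.Sub K := by
    rw [hK]
    exact ((z.K_sub i).add hKH).add hKp
  have hLs : S.Sub (fun k => K k + Kl k * (s.lf i).e) := hKs.add (hKl.mul (S.Sub_const (Nat.cast_nonneg _)))
  have hbil := row_bilip (rpz z) hlow hst hLs (half_pos hε)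
  obtain ⟨C, hC1, hcmp⟩ := pt_cmp (s.lf i).e M κ z.D
  obtain ⟨KK, hKK⟩ : ∃ KK : ℕ → ℝ, KK = fun k => 3 * M * ((2 * K k + 1) + 8 * (C * (K k + 1) * (Kb k + 1))) + 2 * K k +
    2 * Kp k := ⟨_, rfl⟩
  have hKKs : S.Sub KK := by
    rw [hKK]
    have h3 : S.Sub (fun k => 3 * (M : ℝ)) := S.Sub_const (by positivity)
    have h4 : S.Sub (fun k => 2 * K k + 1) := ((S.Sub_const zero_le_two).mul hKs).add (S.Sub_const zero_le_one)
    have h5 : S.Sub (fun k => 8 * (C * (K k + 1) * (Kb k + 1))) := (S.Sub_const (by norm_num)).mul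
      (((S.Sub_const (by linarith)).mul (hKs.add (S.Sub_const zero_le_one))).mul (hKb.add (S.Sub_const zero_le_one)))
    exact ((h3.mul (h4.add h5)).add ((S.Sub_const zero_le_two).mul hKs)).add ((S.Sub_const zero_le_two).mul hKp)
  have e1 : (fun k => (fc (Setoid.ker (z.X.cellv b' k)) : FL (z.Z.sp.F k)) ⊔ (z.sys.lf i).win b k) =
      fun k => fc (F := z.Z.sp.F k) (Setoid.ker (z.X.cellv b' k) ⊓
        ((z.sys.lf i).La k ⊓ Setoid.ker ((z.sys.lf i).Y.cellv b k))) := by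
    funext k
    exact (fc_inf _ _).symm
  rw [e1]
  refine up_cell_typ s.Q z.Z (z.Z.c + z.Z.u * b' - ε) (fun k => (Setoid.ker (z.X.cellv b' k) ⊓
        ((z.sys.lf i).La k ⊓ Setoid.ker ((z.sys.lf i).Y.cellv b k)) : Setoid (z.Z.l k).T.Ω)) KK hKKs
    (Typ.and (S := z.Z.sp) (Typ.and (S := z.Z.sp) (z.A_typ i) (z.G_cube i)) (Typ.and (S := z.Z.sp) hH hbil)) ?_
  filter_upwards [(s.lf i).alg, (s.lf i).crF, (s.lf i).fn, hlip, hseg, hpt, z.G_fn' i, ev_const S 2 (mul_pos hu hb),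
    (z.K_sub i).1, hKH.1, hKp.1, hKl.1, hKb.1] with k g1 g2 g3 g4 g5 g6 g7 g8 p1 p2 p3 p4 p5
  intro (ω : (z.Z.l k).T.Ω) (ω' : (z.Z.l k).T.Ω) a a' c c' gz r j
  obtain ⟨⟨cA, cG⟩, cH, cB⟩ := c
  obtain ⟨⟨cA', -⟩, -, -⟩ := c'
  obtain ⟨v1, v2, v3⟩ := z.Z.hZ k ω ω' a a' gz
  have hω := (z.Z.l k).p.supp ω a
  have hω' := (z.Z.l k).p.supp ω' a'
  have hX : z.X.cellv b' k ω = z.X.cellv b' k ω' := r.1
  have hz : z.Z.zLa (s.lf i) k ω ω' := r.2.1.1
  have hY : (z.Z.fr (s.lf i).Y).cellv b k ω = (z.Z.fr (s.lf i).Y).cellv b k ω' := r.2.2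
  have hF : (s.lf i).F k ((z.Z.l k).p.π ω) = (s.lf i).F k ((z.Z.l k).p.π ω') := g3 _ _ hω hω' v3 hz.1
  have hcY : (s.lf i).Y.cellv z.Z.c k ((z.Z.l k).p.π ω) = (s.lf i).Y.cellv z.Z.c k ((z.Z.l k).p.π ω') := hz.2
  have hcr : crn (s.lf i) z.Z.c k ((z.Z.l k).p.π ω) = crn (s.lf i) z.Z.c k ((z.Z.l k).p.π ω') := by
    funext m
    show S.dl z.Z.c k * (⌊(s.lf i).Y.v k ((z.Z.l k).p.π ω) m / S.dl z.Z.c k⌋ : ℝ) =
      S.dl z.Z.c k * (⌊(s.lf i).Y.v k ((z.Z.l k).p.π ω') m / S.dl z.Z.c k⌋ : ℝ)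
    rw [show ⌊(s.lf i).Y.v k ((z.Z.l k).p.π ω) m / S.dl z.Z.c k⌋ =
      ⌊(s.lf i).Y.v k ((z.Z.l k).p.π ω') m / S.dl z.Z.c k⌋ from congrFun hcY m]
  have hG : z.G i k ω = z.G i k ω' := g7 ω ω' a a' gz hz
  have hKk : K k = z.K i k + KH k + Kp k := by rw [hK]
  have hd := S.dl_pos z.Z.c k
  have hdu := S.dl_pos z.Z.u k
  have hd1 := S.dl_pos 1 k
  have hD := S.dl_pos (z.Z.u * b') k
  have huD : S.dl z.Z.u k ≤ S.dl (z.Z.u * b') k := S.dl_anti (by nlinarith) k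
  have hW1 : 1 ≤ S.dl (-(ε / 2)) k := by
    rw [← S.dl_zero k]
    exact S.dl_anti (by linarith) k
  -- the data
  let x : PtD (s.lf i).e M κ z.D :=
    { al := (s.lf i).al k ((z.Z.l k).p.π ω)
      Yc := (s.lf i).Y.v k ((z.Z.l k).p.π ω)
      alg := g1 _ hω
      F := (s.lf i).F k ((z.Z.l k).p.π ω)
      crF := g2 _ hω
      Kb := Kb k
      Kb0 := p5
      seg := fun f hf y z' hy hz' => (g5 _ hω f hf y z' hy hz').2
      Kl := Kl k
      Kl0 := p4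
      lip := fun y z' hy hz' j => g4 _ hω y z' hy hz' j
      d := S.dl z.Z.c k
      d0 := hd
      d1 := z.Z.dl_c_le k
      crn := crn (s.lf i) z.Z.c k ((z.Z.l k).p.π ω)
      Yp := (z.Z.fr (s.lf i).Y).v k ω
      hYp := fun m => par_eq (s.lf i) z.Z k ω m
      Yp1 := fun m => by
        rw [z.Z.fr_v]
        have h2 := Int.floor_le ((s.lf i).Y.v k ((z.Z.l k).p.π ω) m / S.dl z.Z.c k)
        have h3 := Int.lt_floor_add_one ((s.lf i).Y.v k ((z.Z.l k).p.π ω) m / S.dl z.Z.c k)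
        rw [abs_le]
        constructor <;> linarith
      p := z.R.p k ω
      pdeg := z.R.deg k ω
      G := z.G i k ω
      Gdeg := fun j => (z.G_deg i k ω j).trans (le_max_left _ _)
      H := H k ω
      Hdeg := fun j => hHdeg k ω j
      K := K k
      K0 := by rw [hKk]; linarith
      Gcf := fun j m => (cA.1 j m).trans (by rw [hKk]; linarith)
      Hcf := fun j m => (cH.1 j m).trans (by rw [hKk]; linarith)
      η := S.dl z.Z.u k
      η0 := hdu.le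
      cube := fun y hy j => (cG y hy j).trans (mul_le_mul_of_nonneg_right (by rw [hKk]; linarith) hdu.le)
      cubH := fun y hy j => (cH.2 y hy j).trans (mul_le_mul_of_nonneg_right (by rw [hKk]; linarith) hdu.le)
      q := s.Q.v k ((z.Z.l k).p.π ω)
      ρ := S.dl 1 k
      ρ0 := hd1
      ρd := S.dl_anti (by linarith) k
      ptQ := fun j => (g6 _ hω j).trans (mul_le_mul_of_nonneg_right (by rw [hKk]; linarith) hd1.le)
      W := S.dl (-(ε / 2)) k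
      W1 := hW1
      bil := fun y y' hy hy' => by
        have h2 := cB y y' hy hy'
        have h3 : S.dl z.Z.c k * S.dl (-(ε / 2)) k = S.dl (z.Z.c - ε / 2) k := by
          rw [← Sp.dl_add]
          congr 1
        rw [h3]
        exact h2 }
  have hβ0 : 0 < S.dl (z.Z.u * b) k := S.dl_pos _ k
  have hcm := hcmp x ((z.Z.fr (s.lf i).Y).v k ω') (S.dl (z.Z.u * b) k) ((2 * K k + 1) * S.dl (z.Z.u * b') k) hβ0.le g8
    (fun m => by
      have h2 := abs_sub_le_of_floor_eq (z.Z.sp.dl_pos b k) (congrFun hY.symm m)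
      rw [z.Z.sp_dl'] at h2
      exact h2)
    (fun j => by
      have h2 := cA.2 j
      have h3 := cA'.2 j
      have h4 := abs_sub_le_of_floor_eq (z.Z.sp.dl_pos b' k) (congrFun hX j)
      rw [z.Z.sp_dl'] at h4
      rw [z.Z.sp_dl1] at h2 h3
      rw [← hG] at h3
      show |MvPolynomial.eval ((z.Z.fr (s.lf i).Y).v k ω') (z.G i k ω j) -
        MvPolynomial.eval ((z.Z.fr (s.lf i).Y).v k ω) (z.G i k ω j)| ≤ _
      have h5 : z.K i k * S.dl z.Z.u k ≤ K k * S.dl (z.Z.u * b') k :=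
        mul_le_mul (by rw [hKk]; linarith) huD hdu.le (by rw [hKk]; linarith)
      have h6 : (2 * K k + 1) * S.dl (z.Z.u * b') k = 2 * (K k * S.dl (z.Z.u * b') k) + S.dl (z.Z.u * b') k := by ring
      rw [h6]
      rw [abs_le] at *
      constructor <;> linarith [h2.1, h2.2, h3.1, h3.2, h4.1, h4.2]) j
  have e2 : (fun m => x.crn m + x.d * (z.Z.fr (s.lf i).Y).v k ω' m) = (s.lf i).Y.v k ((z.Z.l k).p.π ω') := by
    funext m
    show crn (s.lf i) z.Z.c k ((z.Z.l k).p.π ω) m + S.dl z.Z.c k * (z.Z.fr (s.lf i).Y).v k ω' m = _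
    rw [hcr]
    exact (par_eq (s.lf i) z.Z k ω' m).symm
  rw [e2] at hcm
  have hcm' : |(s.lf i).F k ((z.Z.l k).p.π ω) ((s.lf i).Y.v k ((z.Z.l k).p.π ω')) j -
      (s.lf i).F k ((z.Z.l k).p.π ω) ((s.lf i).Y.v k ((z.Z.l k).p.π ω)) j| ≤ S.dl z.Z.c k *
        (3 * M * S.dl (-(ε / 2)) k * ((2 * K k + 1) * S.dl (z.Z.u * b') k + C * (K k + 1) * (Kb k + 1) *
          ((2 * S.dl (z.Z.u * b) k) ^ 2 + 2 * S.dl (z.Z.u * b) k * (S.dl 1 k / S.dl z.Z.c k + S.dl z.Z.u k))) +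
            2 * K k * S.dl z.Z.u k) := hcm
  have hK0 : 0 ≤ K k := by rw [hKk]; linarith
  set W := S.dl (-(ε / 2)) k with hW
  set D := S.dl (z.Z.u * b') k with hD'
  have hβ1 : S.dl (z.Z.u * b) k ≤ 1 := by linarith
  have q1 : (2 * S.dl (z.Z.u * b) k) ^ 2 ≤ 4 * D := by
    have h2 : S.dl (z.Z.u * b) k * S.dl (z.Z.u * b) k ≤ D := by
      rw [← Sp.dl_add, hD']
      exact S.dl_anti (by nlinarith) k
    nlinarith
  have q2 : S.dl 1 k / S.dl z.Z.c k ≤ S.dl z.Z.u k := by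
    rw [div_le_iff₀ hd, ← Sp.dl_add]
    exact S.dl_anti (by linarith) k
  have q3 : 2 * S.dl (z.Z.u * b) k * (S.dl 1 k / S.dl z.Z.c k + S.dl z.Z.u k) ≤ 4 * D := by
    have h2 : S.dl 1 k / S.dl z.Z.c k + S.dl z.Z.u k ≤ 2 * D := by linarith
    have h3 : 0 ≤ S.dl 1 k / S.dl z.Z.c k + S.dl z.Z.u k := by positivity
    nlinarith
  have hB0 : 0 ≤ C * (K k + 1) * (Kb k + 1) := by positivity
  have q4 : C * (K k + 1) * (Kb k + 1) * ((2 * S.dl (z.Z.u * b) k) ^ 2 + 2 * S.dl (z.Z.u * b) k *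
      (S.dl 1 k / S.dl z.Z.c k + S.dl z.Z.u k)) ≤ C * (K k + 1) * (Kb k + 1) * (8 * D) :=
    mul_le_mul_of_nonneg_left (by linarith) hB0
  have hW0 : 0 < W := by linarith
  have q5 : 3 * M * W * ((2 * K k + 1) * D + C * (K k + 1) * (Kb k + 1) * ((2 * S.dl (z.Z.u * b) k) ^ 2 +
      2 * S.dl (z.Z.u * b) k * (S.dl 1 k / S.dl z.Z.c k + S.dl z.Z.u k))) ≤
        3 * M * W * ((2 * K k + 1) * D + C * (K k + 1) * (Kb k + 1) * (8 * D)) :=
    mul_le_mul_of_nonneg_left (by linarith) (by positivity)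
  have q6 : 2 * K k * S.dl z.Z.u k ≤ 2 * K k * (D * W) := by
    apply mul_le_mul_of_nonneg_left _ (by positivity)
    nlinarith
  have q7 : S.dl z.Z.c k * (3 * M * W * ((2 * K k + 1) * D + C * (K k + 1) * (Kb k + 1) *
      ((2 * S.dl (z.Z.u * b) k) ^ 2 + 2 * S.dl (z.Z.u * b) k * (S.dl 1 k / S.dl z.Z.c k + S.dl z.Z.u k))) +
        2 * K k * S.dl z.Z.u k) ≤ (3 * M * ((2 * K k + 1) + 8 * (C * (K k + 1) * (Kb k + 1))) + 2 * K k) *
          (S.dl z.Z.c k * D * W) := by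
    refine (mul_le_mul_of_nonneg_left (add_le_add q5 q6) hd.le).trans (le_of_eq ?_)
    ring
  have hdDW : S.dl z.Z.c k * D * W ≤ S.dl (z.Z.c + z.Z.u * b' - ε) k := by
    rw [hD', hW, ← Sp.dl_add, ← Sp.dl_add]
    exact S.dl_anti (by linarith) k
  have hd1' : S.dl 1 k ≤ S.dl (z.Z.c + z.Z.u * b' - ε) k := S.dl_anti (by nlinarith) k
  have hS0 := S.dl_pos (z.Z.c + z.Z.u * b' - ε) k
  have q8 : (3 * M * ((2 * K k + 1) + 8 * (C * (K k + 1) * (Kb k + 1))) + 2 * K k) * (S.dl z.Z.c k * D * W) ≤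
      (3 * M * ((2 * K k + 1) + 8 * (C * (K k + 1) * (Kb k + 1))) + 2 * K k) * S.dl (z.Z.c + z.Z.u * b' - ε) k :=
    mul_le_mul_of_nonneg_left hdDW (by positivity)
  have q9 := (hcm'.trans q7).trans q8
  have r1 := g6 _ hω j
  have r2 := g6 _ hω' j
  rw [← hF] at r2
  have r3 : Kp k * S.dl 1 k ≤ Kp k * S.dl (z.Z.c + z.Z.u * b' - ε) k := mul_le_mul_of_nonneg_left hd1' p3
  have hKKk : KK k = 3 * M * ((2 * K k + 1) + 8 * (C * (K k + 1) * (Kb k + 1))) + 2 * K k + 2 * Kp k := by rw [hKK]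
  rw [hKKk, add_mul, mul_assoc 2 (Kp k)]
  rw [abs_le] at *
  constructor <;> linarith [q9.1, q9.2, r1.1, r1.2, r2.1, r2.2]

/-- UNIT DIRECTIONS OF ZOOMS IN ROWS which are bi-Lipschitz at the finest scale -/
theorem ud_rw {s : MSys S M E ι} (z : RW s M) (hlow : RLow (rpz z) z.Z.c) (hst : RStab (rpz z)) {i : ι} {v : ℕ}
    (hu : Ud v s i) : Ud v z.sys i := by
  intro T' p A hA
  have hU := z.Z.hu
  have hc := z.hc
  have h1 := z.Z.h1
  refine dgw_chain (z.sys.im p A hA) i fun b b' h0 hb hb1 hbb => ?_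
  rcases hb.eq_or_lt with e | hlt
  · rw [e, sub_self, mul_zero]
    exact dgw_nonneg _ _ _ _
  have hv : (0 : ℝ) ≤ v := Nat.cast_nonneg v
  refine le_of_forall_pos_le_add fun δ hδ => ?_
  obtain ⟨ε, hε0, hε1, hε2⟩ : ∃ ε : ℝ, 0 < ε ∧ ε ≤ z.Z.u * (b' - b) ∧ v * ε ≤ z.Z.u * δ := by
    refine ⟨min (z.Z.u * (b' - b)) (z.Z.u * δ / (v + 1)), lt_min (mul_pos hU (by linarith)) (by positivity),
      min_le_left _ _, ?_⟩
    have h2 := min_le_right (z.Z.u * (b' - b)) (z.Z.u * δ / (v + 1))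
    rw [le_div_iff₀ (by positivity)] at h2
    have h3 : 0 < min (z.Z.u * (b' - b)) (z.Z.u * δ / (v + 1)) :=
      lt_min (mul_pos hU (by linarith)) (by positivity)
    nlinarith
  set r : ℝ := z.Z.c + z.Z.u * b' - ε with hr
  have h3 := hu (unb z.Z.l p) ((unp z.Z.l p).comp z.Z.l.pj) (unA z.Z.l p A) hA (z.Z.c + z.Z.u * b) r (by positivity)
    (by rw [hr]; linarith) (by rw [hr]; nlinarith)
  have hl : Nul S (fun k => (z.Z.l k).leak ((s.lf i).win (z.Z.c + z.Z.u * b) k)) := by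
    apply ((z.dm i).add ((s.lf i).win_mono (z.c_le h0.le))).of_le
      (Eventually.of_forall fun k => FLab.leak_nonneg _ _)
    exact Eventually.of_forall fun k => FLab.leak_le_leak _ _ _
  obtain ⟨ν, hν, h4⟩ := h_bas z.Z.l p A hA (x := fun k => fc (Setoid.ker (s.Q.cellv r k))) hl
  have n1 := PLe_im (z.win_le i h0.le) p A hA
  have n2 := PLe_im (cell_rw z hlow hst i h0 hb1 hbb hε0) p A hA
  have u1 := UB_cell (s.Q.im ((unp z.Z.l p).comp z.Z.l.pj) (unA z.Z.l p A)) r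
    (((s.im ((unp z.Z.l p).comp z.Z.l.pj) (unA z.Z.l p A) hA).lf i).win (z.Z.c + z.Z.u * b))
  have u2 := UB_cell (z.sys.Q.im p A) b' (((z.sys.im p A hA).lf i).win b)
  have hn : ∀ k, ((Sp.im p A).F k).n = z.Z.u * (S.F k).n := fun k => z.Z.l.n_over z.Z.u z.Z.hu k
  have t1 : Tendsto (fun k => h (fc (Setoid.ker ((s.Q.im ((unp z.Z.l p).comp z.Z.l.pj) (unA z.Z.l p A)).cellv r k)))
      (((s.im ((unp z.Z.l p).comp z.Z.l.pj) (unA z.Z.l p A) hA).lf i).win (z.Z.c + z.Z.u * b) k) /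
        ((Sp.im ((unp z.Z.l p).comp z.Z.l.pj) (unA z.Z.l p A)).F k).n - ν k) UF
      (𝓝 (ul (fun k => h (fc (Setoid.ker ((s.Q.im ((unp z.Z.l p).comp z.Z.l.pj) (unA z.Z.l p A)).cellv r k)))
        (((s.im ((unp z.Z.l p).comp z.Z.l.pj) (unA z.Z.l p A) hA).lf i).win (z.Z.c + z.Z.u * b) k) /
          ((Sp.im ((unp z.Z.l p).comp z.Z.l.pj) (unA z.Z.l p A)).F k).n) - 0)) := (ul_tendsto u1).sub hν
  have t2 := ((((ul_tendsto u2).add n1).add n2).const_mul z.Z.u)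
  rw [add_zero, add_zero] at t2
  rw [sub_zero] at t1
  have h5 : ul (fun k => h (fc (Setoid.ker ((s.Q.im ((unp z.Z.l p).comp z.Z.l.pj) (unA z.Z.l p A)).cellv r k)))
        (((s.im ((unp z.Z.l p).comp z.Z.l.pj) (unA z.Z.l p A) hA).lf i).win (z.Z.c + z.Z.u * b) k) /
          ((Sp.im ((unp z.Z.l p).comp z.Z.l.pj) (unA z.Z.l p A)).F k).n) ≤
      z.Z.u * dgw (z.sys.im p A hA) i b b' := by
    refine le_of_tendsto_of_tendsto t1 t2 ?_
    filter_upwards [h4] with k hk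
    refine hk.trans ?_
    have hS := (S.F k).pos
    set a : FL ((Sp.im p A).F k) := FSp.imap (p.fp k) (A k) ((z.Z.l k).up z.Z.u z.Z.hu
      (fc (Setoid.ker (s.Q.cellv r k)))) with ha
    set y : FL ((Sp.im p A).F k) := FSp.imap (p.fp k) (A k) (fc (Setoid.ker (z.X.cellv b' k))) with hy
    set w : FL ((Sp.im p A).F k) := FSp.imap (p.fp k) (A k) ((z.Z.l k).up z.Z.u z.Z.hu
      ((s.lf i).win (z.Z.c + z.Z.u * b) k)) with hw
    set w' : FL ((Sp.im p A).F k) := FSp.imap (p.fp k) (A k) ((z.sys.lf i).win b k) with hw'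
    have e0 : FSp.imap (p.fp k) (A k) ((fc (Setoid.ker (z.X.cellv b' k)) : FL (z.Z.sp.F k)) ⊔ (z.sys.lf i).win b k) =
      y ⊔ w' := FSp.imap_sup _ _ _ _
    have g1 := h_triangle' a w' w
    have g2 := h_triangle a y w'
    show h a w / (S.F k).n ≤ z.Z.u * (h y w' / ((Sp.im p A).F k).n + h w' w / ((Sp.im p A).F k).n +
      h a (FSp.imap (p.fp k) (A k) ((fc (Setoid.ker (z.X.cellv b' k)) : FL (z.Z.sp.F k)) ⊔ (z.sys.lf i).win b k)) /
        ((Sp.im p A).F k).n)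
    rw [e0, hn k]
    have e8 : z.Z.u * (h y w' / (z.Z.u * (S.F k).n) + h w' w / (z.Z.u * (S.F k).n) +
        h a (y ⊔ w') / (z.Z.u * (S.F k).n)) = (h y w' + h w' w + h a (y ⊔ w')) / (S.F k).n := by
      field_simp
    rw [e8]
    exact div_le_div_of_nonneg_right (by linarith) hS.le
  have h6 := h3.trans h5
  have h7 : (v : ℝ) * (r - (z.Z.c + z.Z.u * b)) = z.Z.u * (v * (b' - b)) - v * ε := by
    rw [hr]
    ring
  rw [h7] at h6
  have h8 : z.Z.u * (v * (b' - b)) ≤ z.Z.u * (dgw (z.sys.im p A hA) i b b' + δ) := by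
    rw [mul_add]
    linarith
  exact le_of_mul_le_mul_left h8 hU

/-- UNIT DIRECTIONS OF ZOOMS IN OPTIMAL FLAG ROWS over K-labels -/
theorem ud_opt [Finite ι] {s : MSys S M E ι} {R : Rsl S} (hR : Pt s R) {z : RW s M} {lam : Fin M → ℝ}
    (hK : KLb s R z.Z.c z.Z.l) (hF : Flg z lam) (hO : OptLam z R lam) {i : ι} {v : ℕ} (hu : Ud v s i) :
    Ud v z.sys i := ud_rw z (RLow.of_opt hR hK hF hO) (RStab.of_opt hR hK hF hO) hu

/-- INV OF ZOOMS IN OPTIMAL FLAG ROWS over K-labels (both alternatives of `OptLam`) -/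
theorem inv_opt [Finite ι] {s : MSys S M E ι} {R : Rsl S} (hR : Pt s R) {z : RW s M} {lam : Fin M → ℝ}
    (hK : KLb s R z.Z.c z.Z.l) (hF : Flg z lam) (hO : OptLam z R lam) {v : ℕ} (hi : Inv v s) : Inv v z.sys :=
  ⟨hi.1, fun i => ud_opt hR hK hF hO (hi.2 i)⟩

end

end Pool.Agent.Helper55.INV
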