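import Pool.Agent.Helper55.INV.Rwz
import Pool.Agent.Helper63.ZMX.St

/-! The input `INVRW` of the row `ZOOMX` (helper63): unit directions of flag zooms with the optimal exponents. -/

set_option autoImplicit false

namespace Pool.Agent.Helper55.INV

open Pool.Agent.Helper31.EC Pool.Agent.Helper84.MT Pool.Agent.Helper29.MX Pool.Agent.Helper7.RD
open Pool.Agent.Helper89.LX
open Pool.Agent.Helper94.SEL (lmd num)

noncomputable section

variable {S : Sp} {M : ℕ} {E : ℕ → ℕ} {ι : Type}

/-- the exponents `lmd` are optimal -/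
theorem optLam_lmd {s : MSys S M E ι} {R : Rsl S} (z : RW s M) : OptLam z R (lmd s R z.Z.c) := by
  refine Or.inl fun j => ?_
  unfold lmd num
  push_cast
  ring

/-- [INVRW] -/
theorem invrw (M : ℕ) : Pool.Agent.Helper63.ZMX.INVRW M := fun _ _ _ _ _ _ hi hR z _ _ _ hK hF _ =>
  inv_opt hR hK hF (optLam_lmd z) hi

end

end Pool.Agent.Helper55.INV
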