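import Pool.Agent.Helper55.INV.Gz

/-! UNIT DIRECTIONS OF TRUNCATIONS (the zoom over the trivial label). -/

set_option autoImplicit false

namespace Pool.Agent.Helper55.INV

open Finset Filter Topology Matrix Pool.Agent.Helper69.RK Pool.Agent.Helper31.EC Pool.Agent.Helper31.EC.Sp
open Pool.Agent.Helper40.EL Pool.Agent.Helper89.LX Pool.Agent.Helper84.MT
open Pool.Agent.Helper49.MD Pool.Agent.Helper36.AM
open Pool.Agent.Helper29.MX

noncomputable section

variable {S T : Sp} {M N : ℕ} {E E' : ℕ → ℕ} {ι κ : Type}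

/-- the trivial label -/
def tl (S : Sp) : Lab S := fun k => FLab.triv (S.F k)

theorem tl_leak (A : Part S) : Nul S (fun k => (tl S k).leak (A k)) := by
  have h1 : (fun k => (tl S k).leak (A k)) = fun _ => (0 : ℝ) := by
    funext k
    exact FLab.triv_leak _
  rw [h1]
  exact Nul.const S 0

/-- UNIT DIRECTIONS OF TRUNCATIONS -/
theorem ud_trn {s : MSys S M E ι} {i : ι} {v : ℕ} (hu : Ud v s i) {e : ℝ} (he : 0 < e) (h1 : e ≤ 1) :
    Ud v (s.trn e he h1) i := by
  refine ud_zoom (t := s.trn e he h1) hu (tl S) he le_rfl (by linarith) (fun b _ _ => tl_leak _) (fun b _ _ => ?_)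
    fun b _ _ => ?_
  · have e1 : ((s.trn e he h1).lf i).win b = (tl S).up e he ((s.lf i).win (0 + e * b)) := by
      funext k
      have e2 : ((s.lf i).Y.chg S.tr e he).cellv b k = (s.lf i).Y.cellv (0 + e * b) k := by
        rw [zero_add]
        exact Pool.Agent.Helper52.SL.cellv_chg (s.lf i).Y e he b k
      exact congrArg (fun f => (fc (F := (S.F k).chg ⊤ e he) ((s.lf i).La k ⊓ Setoid.ker f))) e2
    exact e1 ▸ PLe.refl _
  · have e1 : (tl S).up e he (fun k => fc (Setoid.ker (s.Q.cellv (0 + e * b) k))) =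
        fun k => fc (Setoid.ker ((s.trn e he h1).Q.cellv b k)) := by
      funext k
      have e2 : (s.Q.chg S.tr e he).cellv b k = s.Q.cellv (0 + e * b) k := by
        rw [zero_add]
        exact Pool.Agent.Helper52.SL.cellv_chg s.Q e he b k
      exact (congrArg (fun f => (fc (F := (S.F k).chg ⊤ e he) (Setoid.ker f))) e2).symm
    rw [e1]
    exact PLe.refl _

/-- INV(v) IS CLOSED UNDER TRUNCATIONS -/
theorem inv_trn {s : MSys S M E ι} {v : ℕ} (h : Inv v s) {e : ℝ} (he : 0 < e) (h1 : e ≤ 1) :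
    Inv v (s.trn e he h1) :=
  ⟨h.1, fun i => ud_trn (h.2 i) he h1⟩

end

end Pool.Agent.Helper55.INV
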