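import Pool.Agent.Helper55.INV.Rwz
import Pool.Agent.Helper37.FST.Zex

/-! The input `INVO` of the rows `ZEX`, `ZMXP` (helper37): unit directions of flag zooms, both alternatives of `OptLam`. -/

set_option autoImplicit false

namespace Pool.Agent.Helper55.INV

/-- [INVO] -/
theorem invo (N : ℕ) : Pool.Agent.Helper37.FST.INVO N := fun _ _ _ _ _ _ hi hR _ _ _ _ _ hK hF hO _ =>
  inv_opt hR hK hF hO hi

end Pool.Agent.Helper55.INV
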