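import Pool.Agent.Helper55.INV.Rowb
import Pool.Agent.Helper37.OKD.Opt

/-! OPTIMAL FLAG ROWS ARE BI-LIPSCHITZ AT THE FINEST SCALE (both alternatives of `OptLam`), from the domination of
helper37. -/

set_option autoImplicit false

namespace Pool.Agent.Helper55.INV

open Finset MvPolynomial Filter Topology Matrix Pool.Agent.Helper69.RK Pool.Agent.Helper31.EC
  Pool.Agent.Helper31.EC.Sp
open Pool.Agent.Helper40.EL Pool.Agent.Helper89.LX Pool.Agent.Helper3.LF Pool.Agent.Helper84.MT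
open Pool.Agent.Helper49.KL (Cub)
open Pool.Agent.Helper7.GZ (ZU Rows eval_dir2 dir_bind dP jac)
open Pool.Agent.Helper7.RD (PZ RW)
open Pool.Agent.Helper26.OUT (tdeg_aff eval_aff coeff_nodes)
open Pool.Agent.Helper77.WDG (nrm nrm_nonneg)
open Pool.Agent.Helper36.AM (cfs pol_cfs)
open Pool.Agent.Helper37.OKD (exists_lev QR grd)
open Pool.Agent.Helper29.MX

noncomputable section

/-- a polynomial which is bounded on a cube is Lipschitz there -/
theorem lip_cube (M D : ℕ) : ∃ C : ℝ, 1 ≤ C ∧ ∀ P : MvPolynomial (Fin M) ℝ, P.totalDegree ≤ D →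
    ∀ (q : Fin M → ℝ) (R A : ℝ), 0 < R → 0 ≤ A → (∀ y, Cub q R y → |eval y P| ≤ A) →
      ∀ y y', Cub q R y → Cub q R y' → ∀ r : ℝ, 0 ≤ r → (∀ i, |y' i - y i| ≤ r) →
        |eval y' P - eval y P| ≤ C * A * (r / R) := by
  obtain ⟨C', h0, hC⟩ := coeff_nodes M D
  refine ⟨Fintype.card (Mon M D) * C' * D + 1, by
    have : 0 ≤ (Fintype.card (Mon M D) : ℝ) * C' * D := by positivity
    linarith, fun P hP q R A hR hA hj y y' hy hy' r hr hyy => ?_⟩
  set P' : MvPolynomial (Fin M) ℝ := bind₁ (fun i => C (q i - R) + C (2 * R) * X i) P with hP'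
  have h1 : P'.totalDegree ≤ D := (tdeg_aff P _ _).trans hP
  have h2 := hC P' h1 A hA (fun j => by
    rw [hP', eval_aff]
    apply hj
    intro i
    show |q i - R + 2 * R * nod D (j i) - q i| ≤ R
    have h3 := nod_nonneg D (j i)
    have h4 := nod_le D (j i) (Nat.le_of_lt_succ (j i).2)
    rw [abs_le]
    constructor <;> nlinarith)
  have h3 : nrm P' ≤ Fintype.card (Mon M D) * (C' * A) := by
    have e1 := nrm_pol (cfs D P')
    rw [pol_cfs P' h1] at e1
    refine e1.trans ?_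
    calc ∑ a, |cfs D P' a| ≤ ∑ _a : Mon M D, C' * A := Finset.sum_le_sum fun a _ => h2 _
      _ = Fintype.card (Mon M D) * (C' * A) := by
        rw [Finset.sum_const, Finset.card_univ, nsmul_eq_mul]
  have hx : ∀ w : Fin M → ℝ, eval w P = eval (fun i => (w i - q i + R) / (2 * R)) P' := by
    intro w
    rw [hP', eval_aff]
    congr 1
    congr 1
    funext i
    field_simp
    ring
  have hb : ∀ w : Fin M → ℝ, Cub q R w → ∀ i, |(w i - q i + R) / (2 * R)| ≤ 1 := by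
    intro w hw i
    have h4 := abs_le.mp (hw i)
    rw [abs_le]
    constructor
    · rw [le_div_iff₀ (by positivity)]
      linarith
    · rw [div_le_one (by positivity)]
      linarith
  have h5 := Pool.Agent.Helper77.WDG.eval_sub_le (P := P') (T := 1) (δ := r / R) le_rfl (by positivity) h1
    (u := fun i => (y' i - q i + R) / (2 * R)) (v := fun i => (y i - q i + R) / (2 * R))
    (fun i _ => hb y' hy' i) (fun i _ => hb y hy i) (fun i _ => by
      rw [← sub_div, abs_div, abs_of_pos (show (0 : ℝ) < 2 * R by positivity), div_le_div_iff₀ (by positivity) hR]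
      have e1 : y' i - q i + R - (y i - q i + R) = y' i - y i := by ring
      rw [e1]
      have := hyy i
      nlinarith)
  rw [hx y', hx y]
  refine h5.trans ?_
  rw [one_pow, mul_one]
  have h6 := mul_le_mul_of_nonneg_right h3 (show 0 ≤ (D : ℝ) * (r / R) by positivity)
  refine h6.trans ?_
  have e2 : (Fintype.card (Mon M D) * C' * D + 1) * A * (r / R) = (Fintype.card (Mon M D) : ℝ) * (C' * A) *
    (D * (r / R)) + A * (r / R) := by ring
  rw [e2]
  have : 0 ≤ A * (r / R) := by positivity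
  linarith

variable {S : Sp} {M : ℕ} {E : ℕ → ℕ} {ι : Type}

/-- the coefficients of the differences -/
theorem gs_cf {Z : ZU S} {Q : S.VV M} (z : PZ Z Q M) {L : ℕ → ℝ} (hL : S.Sub L) (i : Fin M)
    (j : Fin M → Fin (z.D + 1)) : ∃ (K : ℕ → ℝ) (Λ : ℝ), S.Sub K ∧ ∀ᶠ k in UF, ∀ ω, (Z.l k).T.μ ω ≠ 0 → ∀ a,
      |(gs z L i j k ω).coeff a| ≤ K k * 2 ^ (Λ * (S.F k).n) := by
  obtain ⟨C', h0, hC⟩ := coeff_nodes M z.D
  obtain ⟨K, hK, hcf⟩ := z.R.cf
  refine ⟨fun k => C' * 2 * ((z.D : ℝ) + 1) ^ M * (K k * (1 + L k) ^ z.D), Z.u + z.Λ, ?_, ?_⟩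
  · refine (S.Sub_const (show (0 : ℝ) ≤ C' * 2 * ((z.D : ℝ) + 1) ^ M by positivity)).mul (hK.mul ?_)
    exact Pool.Agent.Helper89.LX.Sub_pow' ((S.Sub_const zero_le_one).add hL) z.D
  · filter_upwards [hcf, hK.1, hL.1] with k h1 hK0 hL0 ω hω a
    have hd1 := S.dl_pos 1 k
    have hd1' : S.dl 1 k ≤ 1 := Pool.Agent.Helper89.LX.dl_one_le S k
    set H : ℝ := K k * 2 ^ (z.Λ * (S.F k).n) with hH
    have hH0 : 0 ≤ H := by positivity
    have hv : ∀ w : Fin M → ℝ, (∀ b, |w b| ≤ 1 + L k) → |eval w (z.R.p k ω i)| ≤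
        ((z.D : ℝ) + 1) ^ M * (H * (1 + L k) ^ z.D) := fun w hw =>
      Pool.Agent.Helper84.MT.eval_le_of_coeff _ (z.R.deg k ω i) H (1 + L k) hH0 (by linarith) (h1 ω hω i) w hw
    have h2 := hC (gs z L i j k ω) (gs_deg z L i j k ω) ((S.dl Z.u k)⁻¹ * (2 * (((z.D : ℝ) + 1) ^ M * (H *
      (1 + L k) ^ z.D)))) (by have := S.dl_pos Z.u k; positivity) (fun j' => by
        rw [gs_eval, abs_mul, abs_of_pos (inv_pos.mpr (S.dl_pos Z.u k))]
        apply mul_le_mul_of_nonneg_left _ (inv_pos.mpr (S.dl_pos Z.u k)).le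
        refine (abs_sub _ _).trans ?_
        rw [two_mul]
        have hn : ∀ b, |nod z.D (j' b)| ≤ 1 := by
          intro b
          rw [abs_of_nonneg (nod_nonneg _ _)]
          exact nod_le z.D (j' b) (Nat.le_of_lt_succ (j' b).2)
        refine add_le_add (hv _ fun b => ?_) (hv _ fun b => (hn b).trans (by linarith))
        have h3 := ndc_cub z.D (fun b => nod z.D (j' b)) (mul_nonneg hL0 hd1.le) j b
        beta_reduce at h3
        have h4 : L k * S.dl 1 k ≤ L k := mul_le_of_le_one_right hL0 hd1'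
        have h5 := abs_sub_abs_le_abs_sub (ndc z.D (fun b => nod z.D (j' b)) (L k * S.dl 1 k) j b) (nod z.D (j' b))
        linarith [hn b]) a
    refine h2.trans (le_of_eq ?_)
    have e1 : (S.dl Z.u k)⁻¹ = 2 ^ (Z.u * (S.F k).n) := by
      unfold Sp.dl
      rw [Real.rpow_neg (by norm_num), inv_inv]
    rw [e1, hH, add_mul, Real.rpow_add (by norm_num)]
    ring

/-- the Jacobian is invertible -/
theorem det_typ {s : MSys S M E ι} {z : RW s M} {lam : Fin M → ℝ} (hF : Flg z lam) :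
    Typ (S := z.Z.sp) (fun k (ω : (z.Z.l k).T.Ω) => (jac (z.R.p k ω) (s.Q.v k ((z.Z.l k).p.π ω))).det ≠ 0) := by
  refine Typ.mono (S := z.Z.sp) (hF.ex 1 one_pos) (Eventually.of_forall fun k ω _ hh => ?_)
  rw [Pool.Agent.Helper37.OKD.det_tri (hF.tri k ω), Finset.prod_ne_zero_iff]
  intro j _ h0
  have h1 := (hh j).1
  rw [h0, abs_zero] at h1
  exact absurd h1 (not_le.mpr (by positivity))

theorem jac_dir (p : Fin M → MvPolynomial (Fin M) ℝ) (q v : Fin M → ℝ) (i : Fin M) :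
    (jac p q *ᵥ v) i = eval q (dir v (p i)) := by
  rw [eval_dir2]
  show ∑ b, jac p q i b * v b = _
  refine Finset.sum_congr rfl fun b _ => ?_
  rw [mul_comm]
  rfl

/-- the rows are tame in small cubes: differences -/
theorem rows_lip {s : MSys S M E ι} (z : RW s M) {b : ℝ} (hb : b = 1 ∨ b + z.Z.u ≤ 1) (hT : Tam z b)
    {L L' : ℕ → ℝ} (hL : S.Sub L) (hL' : S.Sub L') : ∃ K : ℕ → ℝ, S.Sub K ∧ Typ (S := z.Z.sp)
      (fun k (ω : (z.Z.l k).T.Ω) => ∀ y y' : Fin M → ℝ, (∀ i, |y i - s.Q.v k ((z.Z.l k).p.π ω) i| ≤ L' k * S.dl b k) →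
        (∀ i, |y' i - y i| ≤ L k * S.dl 1 k) → ∀ j,
          |eval y' (z.R.p k ω j) - eval y (z.R.p k ω j)| ≤ K k * S.dl z.Z.u k) := by
  rcases hb with rfl | hb
  · obtain ⟨K, hK, h1⟩ := z.R.lp (fun k => L k + L' k) (hL.add hL')
    refine ⟨fun k => 2 * K k, (S.Sub_const zero_le_two).mul hK, Typ.mono (S := z.Z.sp) h1 ?_⟩
    filter_upwards [hL.1, hL'.1] with k hL0 hL0' ω _ hh y y' hy hy' j
    have hd1 := S.dl_pos 1 k
    have h2 := hh y (fun i => (hy i).trans (mul_le_mul_of_nonneg_right (by linarith) hd1.le)) j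
    have h3 := hh y' (fun i => by
      have e1 : y' i - s.Q.v k ((z.Z.l k).p.π ω) i = (y' i - y i) + (y i - s.Q.v k ((z.Z.l k).p.π ω) i) := by ring
      rw [e1, add_mul]
      exact (abs_add_le _ _).trans (add_le_add (hy' i) (hy i))) j
    rw [abs_le] at *
    constructor <;> linarith [h2.1, h2.2, h3.1, h3.2]
  · obtain ⟨C, hC1, hC⟩ := lip_cube M z.D
    obtain ⟨K, hK, h1⟩ := hT (fun k => L k + L' k + 1) ((hL.add hL').add (S.Sub_const zero_le_one))
    refine ⟨fun k => C * K k * L k, ((S.Sub_const (by linarith)).mul hK).mul hL, Typ.mono (S := z.Z.sp) h1 ?_⟩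
    filter_upwards [hL.1, hL'.1, hK.1] with k hL0 hL0' hK0 ω _ hh y y' hy hy' j
    have hd1 := S.dl_pos 1 k
    have hdb := S.dl_pos b k
    have hd1b : S.dl 1 k ≤ S.dl b k := S.dl_anti (by linarith [z.Z.hu]) k
    have h2 := hC (z.R.p k ω j) (z.R.deg k ω j) (s.Q.v k ((z.Z.l k).p.π ω)) ((L k + L' k + 1) * S.dl b k) (K k)
      (by positivity) hK0 (fun y hy => hh y hy j) y y' (fun i => (hy i).trans (mul_le_mul_of_nonneg_right (by linarith)
        hdb.le)) (fun i => by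
        have e1 : y' i - s.Q.v k ((z.Z.l k).p.π ω) i = (y' i - y i) + (y i - s.Q.v k ((z.Z.l k).p.π ω) i) := by ring
        rw [e1]
        refine (abs_add_le _ _).trans ((add_le_add (hy' i) (hy i)).trans ?_)
        have := mul_le_mul_of_nonneg_left hd1b hL0
        nlinarith) (L k * S.dl 1 k) (by positivity) hy'
    refine h2.trans ?_
    have hK' : 0 ≤ C * K k := by
      have : 0 ≤ C := by linarith
      positivity
    have h3 : L k * S.dl 1 k / ((L k + L' k + 1) * S.dl b k) ≤ L k * S.dl z.Z.u k := by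
      rw [div_le_iff₀ (by positivity)]
      have h4 : S.dl 1 k ≤ S.dl z.Z.u k * S.dl b k := by
        rw [← Sp.dl_add]
        exact S.dl_anti (by linarith) k
      have h5 := mul_le_mul_of_nonneg_left h4 hL0
      have h6 : 0 ≤ L k * (S.dl z.Z.u k * S.dl b k) := by
        have := S.dl_pos z.Z.u k
        positivity
      nlinarith
    have h7 := mul_le_mul_of_nonneg_left h3 hK'
    linarith

/-- the rows of a deep zoom -/
abbrev rpz {s : MSys S M E ι} (z : RW s M) : PZ z.Z s.Q M := ⟨z.D, z.Λ, z.R, z.X, z.hX⟩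

/-- THE DIFFERENTIAL OF OPTIMAL ROWS IS LARGE -/
theorem RLow.of_opt [Finite ι] {s : MSys S M E ι} {R : Rsl S} (hR : Pt s R) {z : RW s M} {lam : Fin M → ℝ}
    (hK : KLb s R z.Z.c z.Z.l) (hF : Flg z lam) (hO : OptLam z R lam) : RLow (rpz z) z.Z.c := by
  obtain ⟨b, -, -, -, -, -, hinv, -⟩ := exists_lev hR hK hF hO
  intro ε hε
  refine Typ.mono (S := z.Z.sp) (Typ.and (S := z.Z.sp) (hinv _ (half_pos hε)) (det_typ hF)) ?_
  filter_upwards [ev_const S M (half_pos hε)] with k k1 ω _ hh v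
  set q := s.Q.v k ((z.Z.l k).p.π ω) with hq
  set J := jac (z.R.p k ω) q with hJ
  set T : ℝ := ∑ i, |eval q (dir v (z.R.p k ω i))| with hT
  have hT0 : 0 ≤ T := Finset.sum_nonneg fun _ _ => abs_nonneg _
  have hu : IsUnit J.det := isUnit_iff_ne_zero.mpr hh.2
  have e1 : v = J⁻¹ *ᵥ (J *ᵥ v) := by
    rw [Matrix.mulVec_mulVec, Matrix.nonsing_inv_mul _ hu, Matrix.one_mulVec]
  have e2 : (2 : ℝ) ^ ((ε / 2 - z.Z.c) * (S.F k).n) = S.dl (z.Z.c - ε / 2) k := by
    unfold Sp.dl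
    congr 1
    ring
  have h2 : ∀ a, |v a| ≤ S.dl (z.Z.c - ε / 2) k * T := by
    intro a
    have e3 : v a = ∑ i, J⁻¹ a i * (J *ᵥ v) i := congrFun e1 a
    rw [e3, hT, Finset.mul_sum]
    refine (Finset.abs_sum_le_sum_abs _ _).trans (Finset.sum_le_sum fun i _ => ?_)
    rw [abs_mul, jac_dir]
    have h3 := hh.1 a i
    rw [e2] at h3
    exact mul_le_mul_of_nonneg_right h3 (abs_nonneg _)
  have h4 : (∑ a, |v a|) ≤ M * (S.dl (z.Z.c - ε / 2) k * T) := by
    refine (Finset.sum_le_sum fun a _ => h2 a).trans (le_of_eq ?_)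
    rw [Finset.sum_const, Finset.card_univ, Fintype.card_fin, nsmul_eq_mul]
  refine h4.trans ?_
  have e5 : S.dl (z.Z.c - ε / 2) k = S.dl (ε / 2) k * S.dl (z.Z.c - ε) k := by
    rw [← Sp.dl_add]
    congr 1
    ring
  rw [e5]
  have e6 : M * (S.dl (ε / 2) k * S.dl (z.Z.c - ε) k * T) = (M * S.dl (ε / 2) k) * (S.dl (z.Z.c - ε) k * T) := by ring
  rw [e6]
  exact mul_le_of_le_one_left (mul_nonneg (S.dl_pos _ k).le hT0) k1

/-- THE DIFFERENTIAL OF OPTIMAL ROWS IS STABLE -/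
theorem RStab.of_opt [Finite ι] {s : MSys S M E ι} {R : Rsl S} (hR : Pt s R) {z : RW s M} {lam : Fin M → ℝ}
    (hK : KLb s R z.Z.c z.Z.l) (hF : Flg z lam) (hO : OptLam z R lam) : RStab (rpz z) := by
  obtain ⟨b, b0, b1, -, hbu, hT, -, hdom⟩ := exists_lev hR hK hF hO
  intro L hL ε hε
  obtain ⟨C₁, hC1, hnd⟩ := dir_nodes M z.D
  have key : ∀ ij : Fin M × (Fin M → Fin (z.D + 1)), Typ (S := z.Z.sp) (fun k (ω : (z.Z.l k).T.Ω) => ∀ r,
      |(grd (gs (rpz z) L ij.1 ij.2 k ω) (s.Q.v k ((z.Z.l k).p.π ω)) ᵥ*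
        (jac (z.R.p k ω) (s.Q.v k ((z.Z.l k).p.π ω)))⁻¹) r| ≤ 2 ^ (ε / 2 * (S.F k).n)) := by
    intro ij
    refine hdom (gs (rpz z) L ij.1 ij.2) ⟨⟨z.D, fun k ω => gs_deg (rpz z) L ij.1 ij.2 k ω⟩, ?_,
      gs_cf (rpz z) hL ij.1 ij.2, ?_⟩ _ (half_pos hε)
    · filter_upwards [z.R.fn] with k hk ω ω' a b g v
      have h1 : z.R.p k ω = z.R.p k ω' := hk ω ω' a b g v
      show gs (rpz z) L ij.1 ij.2 k ω = gs (rpz z) L ij.1 ij.2 k ω'
      unfold gs
      rw [h1]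
    · intro L' hL'
      obtain ⟨K, hK, h1⟩ := rows_lip z hbu hT hL hL'
      refine ⟨K, hK, Typ.mono (S := z.Z.sp) h1 ?_⟩
      filter_upwards [hL.1] with k hL0 ω _ hh y hy
      have hd := S.dl_pos z.Z.u k
      rw [gs_eval, abs_mul, abs_of_pos (inv_pos.mpr hd), inv_mul_le_iff₀ hd]
      have h2 := hh y (ndc z.D y (L k * S.dl 1 k) ij.2) hy (ndc_cub z.D y (mul_nonneg hL0 (S.dl_pos 1 k).le) ij.2) ij.1
      exact h2.trans (le_of_eq (mul_comm _ _))
  have h1 := Pool.Agent.Helper7.GZ.Typ_all (S := z.Z.sp) _ key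
  refine Typ.mono (S := z.Z.sp) (Typ.and (S := z.Z.sp) h1 (det_typ hF)) ?_
  filter_upwards [ev_const S C₁ (half_pos hε), hL.1] with k k1 hL0 ω _ hω v i y hy
  set q := s.Q.v k ((z.Z.l k).p.π ω) with hq
  set J := jac (z.R.p k ω) q with hJ
  set T : ℝ := ∑ i, |eval q (dir v (z.R.p k ω i))| with hT'
  have hT0 : 0 ≤ T := Finset.sum_nonneg fun _ _ => abs_nonneg _
  have hu : IsUnit J.det := isUnit_iff_ne_zero.mpr hω.2
  have h2 : ∀ j, |eval (ndc z.D q (L k * S.dl 1 k) j) (dir v (z.R.p k ω i)) - eval q (dir v (z.R.p k ω i))| ≤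
      S.dl (z.Z.u - ε / 2) k * T := by
    intro j
    have h3 := hω.1 (i, j)
    have e1 : ∑ b, v b * eval q (pderiv b (gs (rpz z) L i j k ω)) =
        ∑ r, (grd (gs (rpz z) L i j k ω) q ᵥ* J⁻¹) r * (J *ᵥ v) r := by
      have e3 : ∑ r, (grd (gs (rpz z) L i j k ω) q ᵥ* J⁻¹) r * (J *ᵥ v) r =
        (grd (gs (rpz z) L i j k ω) q ᵥ* J⁻¹) ⬝ᵥ (J *ᵥ v) := rfl
      rw [e3, Matrix.dotProduct_mulVec, Matrix.vecMul_vecMul, Matrix.nonsing_inv_mul _ hu, Matrix.vecMul_one]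
      exact Finset.sum_congr rfl fun b _ => mul_comm _ _
    have h4 : |∑ b, v b * eval q (pderiv b (gs (rpz z) L i j k ω))| ≤ 2 ^ (ε / 2 * (S.F k).n) * T := by
      rw [e1, hT', Finset.mul_sum]
      refine (Finset.abs_sum_le_sum_abs _ _).trans (Finset.sum_le_sum fun r _ => ?_)
      rw [abs_mul, jac_dir]
      exact mul_le_mul_of_nonneg_right (h3 r) (abs_nonneg _)
    rw [gs_dir, abs_mul, abs_of_pos (inv_pos.mpr (S.dl_pos z.Z.u k)), inv_mul_le_iff₀ (S.dl_pos z.Z.u k)] at h4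
    refine h4.trans (le_of_eq ?_)
    rw [← mul_assoc]
    congr 1
    have e4 : (2 : ℝ) ^ (ε / 2 * (S.F k).n) = S.dl (-(ε / 2)) k := by
      unfold Sp.dl
      congr 1
      ring
    rw [e4, ← Sp.dl_add]
    congr 1
  have h3 := hnd (z.R.p k ω i) (z.R.deg k ω i) v q (L k * S.dl 1 k) (S.dl (z.Z.u - ε / 2) k * T)
    (mul_nonneg hL0 (S.dl_pos 1 k).le) (by have := S.dl_pos (z.Z.u - ε / 2) k; positivity) h2 y hy
  refine h3.trans ?_
  have e3 : S.dl (z.Z.u - ε / 2) k = S.dl (ε / 2) k * S.dl (z.Z.u - ε) k := by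
    rw [← Sp.dl_add]
    congr 1
    ring
  rw [e3]
  have h6 : C₁ * (S.dl (ε / 2) k * S.dl (z.Z.u - ε) k * T) =
      (C₁ * S.dl (ε / 2) k) * (S.dl (z.Z.u - ε) k * T) := by ring
  rw [h6]
  exact mul_le_of_le_one_left (mul_nonneg (S.dl_pos _ k).le hT0) k1

end

end Pool.Agent.Helper55.INV
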