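import Pool.Agent.Helper49.KL.Core
import Pool.Agent.Helper26.OUT.Wd
import Pool.Agent.Helper4.VZ.Tm

/-! ROWS WHICH ARE BI-LIPSCHITZ IN A SMALL CUBE: if the differentials of the rows at the nodes of a cube are near the
differential at its centre then this holds in the whole cube, and differences of values of the rows are at least a
multiple of the differences of the points. -/

set_option autoImplicit false

namespace Pool.Agent.Helper55.INV

open Finset MvPolynomial Pool.Agent.Helper3.LF Pool.Agent.Helper84.MT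
open Pool.Agent.Helper49.KL (Cub)
open Pool.Agent.Helper26.OUT (coeff_nodes tdeg_aff eval_aff)
open Pool.Agent.Helper4.VZ (line_deriv)

noncomputable section

variable {M : ℕ}

/-- the nodes of the cube -/
def ndc (D : ℕ) (q : Fin M → ℝ) (R : ℝ) (j : Fin M → Fin (D + 1)) : Fin M → ℝ := fun i => q i + R * (2 * nod D (j i) - 1)

theorem ndc_cub (D : ℕ) (q : Fin M → ℝ) {R : ℝ} (hR : 0 ≤ R) (j : Fin M → Fin (D + 1)) : Cub q R (ndc D q R j) := by
  intro i
  show |q i + R * (2 * nod D (j i) - 1) - q i| ≤ R
  rw [add_sub_cancel_left, abs_mul, abs_of_nonneg hR]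
  have h1 := nod_nonneg D (j i)
  have h2 := nod_le D (j i) (Nat.le_of_lt_succ (j i).2)
  have h3 : |2 * nod D (j i) - 1| ≤ 1 := by
    rw [abs_le]
    constructor <;> linarith
  calc R * |2 * nod D (j i) - 1| ≤ R * 1 := mul_le_mul_of_nonneg_left h3 hR
    _ = R := mul_one R

/-- a polynomial is bounded on a cube by its values at the nodes -/
theorem nodes_bound (M D : ℕ) : ∃ C : ℝ, 1 ≤ C ∧ ∀ P : MvPolynomial (Fin M) ℝ, P.totalDegree ≤ D →
    ∀ (q : Fin M → ℝ) (R A : ℝ), 0 ≤ R → 0 ≤ A → (∀ j, |eval (ndc D q R j) P| ≤ A) →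
      ∀ y, Cub q R y → |eval y P| ≤ C * A := by
  obtain ⟨C', h0, hC⟩ := coeff_nodes M D
  refine ⟨((D : ℝ) + 1) ^ M * C' + 1, by
    have : 0 ≤ ((D : ℝ) + 1) ^ M * C' := by positivity
    linarith, fun P hP q R A hR hA hj y hy => ?_⟩
  rcases hR.eq_or_lt with e | hR
  · have h1 : y = ndc D q R (fun _ => 0) := by
      funext i
      have h2 := hy i
      rw [← e] at h2
      have h3 : y i - q i = 0 := abs_eq_zero.mp (le_antisymm h2 (abs_nonneg _))
      show y i = q i + R * _
      rw [← e]
      linarith
    rw [h1]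
    refine (hj _).trans ?_
    have : 0 ≤ ((D : ℝ) + 1) ^ M * C' * A := by positivity
    linarith
  · set P' : MvPolynomial (Fin M) ℝ := bind₁ (fun i => C (q i - R) + C (2 * R) * X i) P with hP'
    have h1 : P'.totalDegree ≤ D := (tdeg_aff P _ _).trans hP
    have h2 := hC P' h1 A hA (fun j => by
      rw [hP', eval_aff]
      have e1 : (fun i => q i - R + 2 * R * nod D (j i)) = ndc D q R j := by
        funext i
        show _ = q i + R * (2 * nod D (j i) - 1)
        ring
      rw [e1]
      exact hj j)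
    have e2 : eval y P = eval (fun i => (y i - q i + R) / (2 * R)) P' := by
      rw [hP', eval_aff]
      congr 1
      congr 1
      funext i
      field_simp
      ring
    rw [e2]
    have h3 := Pool.Agent.Helper84.MT.eval_le_of_coeff P' h1 (C' * A) 1 (by positivity) le_rfl h2
      (fun i => (y i - q i + R) / (2 * R)) (fun i => by
        have h4 := abs_le.mp (hy i)
        rw [abs_le]
        constructor
        · rw [le_div_iff₀ (by positivity)]
          linarith
        · rw [div_le_one (by positivity)]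
          linarith)
    refine h3.trans ?_
    rw [one_pow, mul_one]
    have e3 : (((D : ℝ) + 1) ^ M * C' + 1) * A = ((D : ℝ) + 1) ^ M * (C' * A) + A := by ring
    rw [e3]
    linarith

/-- differentials in the cube from differentials at the nodes -/
theorem dir_nodes (M D : ℕ) : ∃ C : ℝ, 1 ≤ C ∧ ∀ P : MvPolynomial (Fin M) ℝ, P.totalDegree ≤ D →
    ∀ (v q : Fin M → ℝ) (R A : ℝ), 0 ≤ R → 0 ≤ A → (∀ j, |eval (ndc D q R j) (dir v P) - eval q (dir v P)| ≤ A) →
      ∀ y, Cub q R y → |eval y (dir v P) - eval q (dir v P)| ≤ C * A := by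
  obtain ⟨C₁, h1, hC⟩ := nodes_bound M D
  refine ⟨C₁, h1, fun P hP v q R A hR hA hj y hy => ?_⟩
  have h2 : (dir v P - C (eval q (dir v P))).totalDegree ≤ D := by
    refine (totalDegree_sub _ _).trans (max_le (dir_deg v P hP) ?_)
    rw [totalDegree_C]
    exact Nat.zero_le _
  have h3 := hC _ h2 q R A hR hA (fun j => by
    rw [map_sub, eval_C]
    exact hj j) y hy
  rw [map_sub, eval_C] at h3
  exact h3

/-- differences of the rows -/
theorem diff_near {p : MvPolynomial (Fin M) ℝ} {q : Fin M → ℝ} {R A : ℝ} {y y' : Fin M → ℝ} (hy : Cub q R y)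
    (hy' : Cub q R y') (h : ∀ z, Cub q R z → |eval z (dir (fun i => y' i - y i) p) -
      eval q (dir (fun i => y' i - y i) p)| ≤ A) :
    |(eval y' p - eval y p) - eval q (dir (fun i => y' i - y i) p)| ≤ A := by
  set v : Fin M → ℝ := fun i => y' i - y i with hv
  set f : ℝ → ℝ := fun t => eval (fun k => y k + t * v k) p with hf
  have hd : ∀ t, HasDerivAt f (eval (fun k => y k + t * v k) (dir v p)) t := fun t => line_deriv y v p t
  obtain ⟨t, ht, h1⟩ := exists_hasDerivAt_eq_slope f (fun t => eval (fun k => y k + t * v k) (dir v p)) one_pos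
    (fun t _ => (hd t).continuousAt.continuousWithinAt) (fun t _ => hd t)
  have e1 : f 1 = eval y' p := by
    rw [hf]
    show eval (fun k => y k + 1 * v k) p = _
    congr 1
    congr 1
    funext k
    rw [hv]
    ring
  have e0 : f 0 = eval y p := by
    rw [hf]
    show eval (fun k => y k + 0 * v k) p = _
    congr 1
    congr 1
    funext k
    ring
  rw [e1, e0, sub_zero, div_one] at h1
  rw [← h1]
  apply h
  intro i
  have h2 := abs_le.mp (hy i)
  have h3 := abs_le.mp (hy' i)
  have e2 : y i + t * v i - q i = (1 - t) * (y i - q i) + t * (y' i - q i) := by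
    rw [hv]
    ring
  rw [e2, abs_le]
  constructor <;> nlinarith [ht.1, ht.2, h2.1, h2.2, h3.1, h3.2]

/-- BI-LIPSCHITZ BOUND: if the differential of the rows varies in the cube by at most `η` times itself then differences
of the rows are at least half of the differential -/
theorem rows_diff {p : Fin M → MvPolynomial (Fin M) ℝ} {q : Fin M → ℝ} {R η : ℝ} (hη : M * η ≤ 1 / 2)
    {y y' : Fin M → ℝ} (hy : Cub q R y) (hy' : Cub q R y') (h : ∀ i, ∀ z, Cub q R z →
      |eval z (dir (fun i => y' i - y i) (p i)) - eval q (dir (fun i => y' i - y i) (p i))| ≤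
        η * ∑ j, |eval q (dir (fun i => y' i - y i) (p j))|) :
    (∑ j, |eval q (dir (fun i => y' i - y i) (p j))|) ≤ 2 * ∑ j, |eval y' (p j) - eval y (p j)| := by
  set Sg : ℝ := ∑ j, |eval q (dir (fun i => y' i - y i) (p j))| with hS
  have hS0 : 0 ≤ Sg := Finset.sum_nonneg fun _ _ => abs_nonneg _
  have h1 : Sg ≤ ∑ j, (|eval y' (p j) - eval y (p j)| + η * Sg) := by
    refine Finset.sum_le_sum fun j _ => ?_
    have h2 := diff_near hy hy' (h j)
    have h3 := abs_sub_abs_le_abs_sub (eval q (dir (fun i => y' i - y i) (p j))) (eval y' (p j) - eval y (p j))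
    rw [abs_sub_comm (eval q _)] at h3
    linarith
  rw [Finset.sum_add_distrib, Finset.sum_const, Finset.card_univ, Fintype.card_fin, nsmul_eq_mul] at h1
  have h4 : (M : ℝ) * (η * Sg) ≤ 1 / 2 * Sg := by
    rw [← mul_assoc]
    exact mul_le_mul_of_nonneg_right hη hS0
  linarith

end

end Pool.Agent.Helper55.INV
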