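import Pool.Agent.Helper55.INV.Pol
import Pool.Agent.Helper49.KL.Inr
import Pool.Agent.Helper81.MT.Bas

/-! THE ROWS OF A STABLE ZOOM ARE BI-LIPSCHITZ AT THE FINEST SCALE: if the point of the zoom has no algebraic relation
which is known to the cells of level `c` of the old point then typically, in the cubes of side `L 2 ^ (- n)` around the
old point, differences of the values of the rows are at least `2 ^ ((c - ε) n)` times the differences of the points. -/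

set_option autoImplicit false

namespace Pool.Agent.Helper55.INV

open Finset MvPolynomial Filter Topology Pool.Agent.Helper69.RK Pool.Agent.Helper31.EC Pool.Agent.Helper31.EC.Sp
open Pool.Agent.Helper40.EL Pool.Agent.Helper89.LX Pool.Agent.Helper3.LF Pool.Agent.Helper84.MT
open Pool.Agent.Helper49.KL (Cub CR RI NSV Kn)
open Pool.Agent.Helper7.GZ (ZU Rows eval_dir2 dir_bind dP)
open Pool.Agent.Helper7.RD (PZ)
open Pool.Agent.Helper26.OUT (tdeg_aff eval_aff)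

noncomputable section

variable {S : Sp} {M : ℕ} {Z : ZU S} {Q : S.VV M}

/-- the cells of level `c` of the old point in the space of the zoom -/
def cqz (Z : ZU S) (Q : S.VV M) (c : ℝ) : ∀ k, Setoid (Z.sp.F k).Ω := fun k =>
  (Setoid.comap (Z.l k).p.π (Setoid.ker (Q.cellv c k)) : Setoid (Z.l k).T.Ω)

/-- the normalised coordinates in the cell of level `c` -/
def gc (Z : ZU S) (Q : S.VV M) (c : ℝ) (a : Fin M) : ∀ k, (Z.l k).T.Ω → MvPolynomial (Fin M) ℝ := fun k ω =>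
  C (S.dl c k)⁻¹ * (X a - C (S.dl c k * ⌊Q.v k ((Z.l k).p.π ω) a / S.dl c k⌋))

theorem gc_deg (c : ℝ) (a : Fin M) (k : ℕ) (ω : (Z.l k).T.Ω) : (gc Z Q c a k ω).totalDegree ≤ 1 := by
  refine (totalDegree_mul _ _).trans ?_
  rw [totalDegree_C, zero_add]
  refine (totalDegree_sub _ _).trans (max_le ?_ ?_)
  · rw [totalDegree_X]
  · rw [totalDegree_C]
    exact Nat.zero_le _

theorem gc_dir (c : ℝ) (a : Fin M) (k : ℕ) (ω : (Z.l k).T.Ω) (v q : Fin M → ℝ) :
    ∑ b, v b * eval q (pderiv b (gc Z Q c a k ω)) = (S.dl c k)⁻¹ * v a := by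
  have h1 : ∀ b, eval q (pderiv b (gc Z Q c a k ω)) = (S.dl c k)⁻¹ * (if a = b then 1 else 0) := by
    intro b
    unfold gc
    rw [Derivation.leibniz, map_sub, pderiv_C, pderiv_X, pderiv_C, smul_zero, add_zero, sub_zero, smul_eq_mul, map_mul,
      eval_C]
    congr 1
    by_cases h : a = b
    · subst h
      simp
    · simp [h]
  simp only [h1]
  rw [Finset.sum_eq_single a]
  · rw [if_pos rfl]
    ring
  · intro b _ hb
    rw [if_neg (fun h => hb h.symm)]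
    ring
  · intro h
    exact absurd (Finset.mem_univ a) h

theorem dl_inv_mul (r s : ℝ) (k : ℕ) : (S.dl r k)⁻¹ * S.dl s k = S.dl (s - r) k := by
  have h1 : S.dl s k = S.dl r k * S.dl (s - r) k := by
    rw [← Sp.dl_add]
    congr 1
    ring
  rw [h1, ← mul_assoc, inv_mul_cancel₀ (S.dl_pos r k).ne', one_mul]

/-- constants are absorbed -/
theorem ev_const (S : Sp) (A : ℝ) {δ : ℝ} (hδ : 0 < δ) : ∀ᶠ k in UF, A * S.dl δ k ≤ 1 := by
  have h1 := Pool.Agent.Helper49.KL.Sub_dl (S.Sub_const (le_max_right A 0)) hδ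
  filter_upwards [h1] with k hk
  exact (mul_le_mul_of_nonneg_right (le_max_left A 0) (S.dl_pos δ k).le).trans hk

/-- THE DIFFERENTIAL OF THE ROWS IS LARGE -/
theorem row_low (z : PZ Z Q M) {c : ℝ} (hc : 0 < c) (hc1 : c ≤ 1) (hN : NSV z.X (Lab.ofZ (cqz Z Q c))) {ε : ℝ}
    (hε : 0 < ε) : Typ (S := Z.sp) (fun k (ω : (Z.l k).T.Ω) => ∀ v : Fin M → ℝ, (∑ a, |v a|) ≤
      S.dl (c - ε) k * ∑ i, |eval (Q.v k ((Z.l k).p.π ω)) (dir v (z.R.p k ω i))|) := by
  set ε' : ℝ := min ε (c / 2) with hε'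
  have he0 : 0 < ε' := lt_min hε (by linarith)
  have hec : ε' ≤ c / 2 := min_le_right _ _
  have hu := Z.hu
  have key : ∀ a : Fin M, Typ (S := Z.sp) (fun k (ω : (Z.l k).T.Ω) => ∀ v : Fin M → ℝ,
      Z.sp.dl (ε' / (2 * Z.u)) k * |∑ b, v b * eval (Q.v k ((Z.l k).p.π ω)) (pderiv b (gc Z Q c a k ω))| ≤
        Pool.Agent.Helper49.KL.nv (z.R.p k ω) (Q.v k ((Z.l k).p.π ω)) v) := by
    intro a
    refine ((RI.ofPZ z).cr hN).inner (D' := 1) (g := gc Z Q c a) (fun k ω => gc_deg c a k ω) ?_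
      (K := fun _ => 2) (Z.sp.Sub_const zero_le_two) ?_ (by positivity)
    · refine Eventually.of_forall fun k ω ω' _ _ _ r => ?_
      have h1 : Q.cellv c k ((Z.l k).p.π ω) = Q.cellv c k ((Z.l k).p.π ω') := r
      have h2 : ⌊Q.v k ((Z.l k).p.π ω) a / S.dl c k⌋ = ⌊Q.v k ((Z.l k).p.π ω') a / S.dl c k⌋ := congrFun h1 a
      show gc Z Q c a k ω = gc Z Q c a k ω'
      unfold gc
      rw [h2]
    · refine Typ.mono (S := Z.sp) (Typ_true (S := Z.sp)) (Eventually.of_forall fun k => ?_)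
      intro (ω : (Z.l k).T.Ω) _ _ y hy
      have hd := S.dl_pos c k
      have h1 : |y a - Q.v k ((Z.l k).p.π ω) a| ≤ S.dl 1 k := hy a
      have h2 := (floor_div_iff hd (Q.v k ((Z.l k).p.π ω) a) _).1 rfl
      have h3 : S.dl 1 k ≤ S.dl c k := S.dl_anti hc1 k
      show |eval y (gc Z Q c a k ω)| ≤ 2
      unfold gc
      rw [map_mul, map_sub, eval_C, eval_X, eval_C, abs_mul, abs_of_pos (inv_pos.mpr hd), inv_mul_le_iff₀ hd]
      rw [abs_le] at h1 ⊢
      constructor <;> linarith [h1.1, h1.2, h2.1, h2.2]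
  have h1 := Pool.Agent.Helper7.GZ.Typ_all (S := Z.sp) _ key
  refine Typ.mono (S := Z.sp) h1 ?_
  filter_upwards [ev_const S (2 * M) (show 0 < ε' / 2 by linarith), ev_const S (2 * M) (show 0 < c - ε' / 2 by linarith)]
    with k k1 k2
  intro (ω : (Z.l k).T.Ω) _ hω v
  set q := Q.v k ((Z.l k).p.π ω) with hq
  set T : ℝ := ∑ i, |eval q (dir v (z.R.p k ω i))| with hT
  have hT0 : 0 ≤ T := Finset.sum_nonneg fun _ _ => abs_nonneg _
  set s : ℝ := ∑ a, |v a| with hs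
  have hs0 : 0 ≤ s := Finset.sum_nonneg fun _ _ => abs_nonneg _
  have hnv : Pool.Agent.Helper49.KL.nv (z.R.p k ω) q v = s + T := by
    unfold Pool.Agent.Helper49.KL.nv
    rw [hs, hT]
    congr 1
    exact Finset.sum_congr rfl fun i _ => by rw [eval_dir2]
  have h2 : ∀ a, S.dl (ε' / 2 - c) k * |v a| ≤ s + T := by
    intro a
    have h3 : Z.sp.dl (ε' / (2 * Z.u)) k * |∑ b, v b * eval q (pderiv b (gc Z Q c a k ω))| ≤ Pool.Agent.Helper49.KL.nv (z.R.p k ω) q v :=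
      hω a v
    rw [gc_dir, hnv, Z.sp_dl', abs_mul, abs_of_pos (inv_pos.mpr (S.dl_pos c k)), ← mul_assoc] at h3
    have e1 : Z.u * (ε' / (2 * Z.u)) = ε' / 2 := by field_simp
    rw [e1, mul_comm (S.dl (ε' / 2) k), dl_inv_mul] at h3
    exact h3
  have h3 : S.dl (ε' / 2 - c) k * s ≤ M * (s + T) := by
    rw [hs, Finset.mul_sum]
    refine (Finset.sum_le_sum fun a _ => h2 a).trans (le_of_eq ?_)
    rw [Finset.sum_const, Finset.card_univ, Fintype.card_fin, nsmul_eq_mul]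
  have hp := S.dl_pos (c - ε' / 2) k
  have e2 : S.dl (c - ε' / 2) k * S.dl (ε' / 2 - c) k = 1 := by
    rw [← Sp.dl_add]
    have : c - ε' / 2 + (ε' / 2 - c) = 0 := by ring
    rw [this, S.dl_zero]
  have h4 : s ≤ M * S.dl (c - ε' / 2) k * (s + T) := by
    have := mul_le_mul_of_nonneg_left h3 hp.le
    rw [← mul_assoc, e2, one_mul] at this
    linarith
  have h5 : s ≤ 2 * M * S.dl (c - ε' / 2) k * T := by
    have : 2 * M * S.dl (c - ε' / 2) k * s ≤ s := by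
      have := mul_le_mul_of_nonneg_right k2 hs0
      rwa [one_mul] at this
    nlinarith
  have e3 : S.dl (c - ε' / 2) k = S.dl (ε' / 2) k * S.dl (c - ε') k := by
    rw [← Sp.dl_add]
    congr 1
    ring
  have h6 : s ≤ S.dl (c - ε') k * T := by
    refine h5.trans ?_
    apply mul_le_mul_of_nonneg_right _ hT0
    rw [e3, ← mul_assoc]
    have := mul_le_mul_of_nonneg_right k1 (S.dl_pos (c - ε') k).le
    rwa [one_mul] at this
  refine h6.trans (mul_le_mul_of_nonneg_right (S.dl_anti ?_ k) hT0)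
  have := min_le_left ε (c / 2)
  linarith

/-- the differences of the row `i` for the shift to the node `j` -/
def gs (z : PZ Z Q M) (L : ℕ → ℝ) (i : Fin M) (j : Fin M → Fin (z.D + 1)) :
    ∀ k, (Z.l k).T.Ω → MvPolynomial (Fin M) ℝ := fun k ω =>
  C (S.dl Z.u k)⁻¹ * (bind₁ (fun a => C (L k * S.dl 1 k * (2 * nod z.D (j a) - 1)) + C 1 * X a) (z.R.p k ω i) -
    z.R.p k ω i)

theorem gs_deg (z : PZ Z Q M) (L : ℕ → ℝ) (i : Fin M) (j : Fin M → Fin (z.D + 1)) (k : ℕ) (ω : (Z.l k).T.Ω) :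
    (gs z L i j k ω).totalDegree ≤ z.D := by
  refine (totalDegree_mul _ _).trans ?_
  rw [totalDegree_C, zero_add]
  exact (totalDegree_sub _ _).trans (max_le ((tdeg_aff _ _ _).trans (z.R.deg k ω i)) (z.R.deg k ω i))

theorem gs_eval (z : PZ Z Q M) (L : ℕ → ℝ) (i : Fin M) (j : Fin M → Fin (z.D + 1)) (k : ℕ) (ω : (Z.l k).T.Ω)
    (y : Fin M → ℝ) : eval y (gs z L i j k ω) = (S.dl Z.u k)⁻¹ *
      (eval (ndc z.D y (L k * S.dl 1 k) j) (z.R.p k ω i) - eval y (z.R.p k ω i)) := by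
  unfold gs
  rw [map_mul, map_sub, eval_C, eval_aff]
  have e1 : (fun a => L k * S.dl 1 k * (2 * nod z.D (j a) - 1) + 1 * y a) = ndc z.D y (L k * S.dl 1 k) j := by
    funext a
    show _ = y a + L k * S.dl 1 k * (2 * nod z.D (j a) - 1)
    ring
  rw [e1]

theorem gs_dir (z : PZ Z Q M) (L : ℕ → ℝ) (i : Fin M) (j : Fin M → Fin (z.D + 1)) (k : ℕ) (ω : (Z.l k).T.Ω)
    (v q : Fin M → ℝ) : ∑ b, v b * eval q (pderiv b (gs z L i j k ω)) = (S.dl Z.u k)⁻¹ *
      (eval (ndc z.D q (L k * S.dl 1 k) j) (dir v (z.R.p k ω i)) - eval q (dir v (z.R.p k ω i))) := by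
  have h1 : ∀ b, eval q (pderiv b (gs z L i j k ω)) = (S.dl Z.u k)⁻¹ * (eval q (pderiv b
      (bind₁ (fun a => C (L k * S.dl 1 k * (2 * nod z.D (j a) - 1)) + C 1 * X a) (z.R.p k ω i))) -
        eval q (pderiv b (z.R.p k ω i))) := by
    intro b
    unfold gs
    rw [Derivation.leibniz, pderiv_C, smul_zero, add_zero, smul_eq_mul, map_mul, eval_C, map_sub, map_sub]
  simp only [h1]
  have h2 : ∑ b, v b * ((S.dl Z.u k)⁻¹ * (eval q (pderiv b
      (bind₁ (fun a => C (L k * S.dl 1 k * (2 * nod z.D (j a) - 1)) + C 1 * X a) (z.R.p k ω i))) -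
        eval q (pderiv b (z.R.p k ω i)))) = (S.dl Z.u k)⁻¹ * (∑ b, v b * eval q (pderiv b
      (bind₁ (fun a => C (L k * S.dl 1 k * (2 * nod z.D (j a) - 1)) + C 1 * X a) (z.R.p k ω i))) -
        ∑ b, v b * eval q (pderiv b (z.R.p k ω i))) := by
    rw [← Finset.sum_sub_distrib, Finset.mul_sum]
    exact Finset.sum_congr rfl fun b _ => by ring
  rw [h2, ← eval_dir2, ← eval_dir2, dir_bind]
  have e1 : (fun a => eval q (C (L k * S.dl 1 k * (2 * nod z.D (j a) - 1)) + C 1 * X a : MvPolynomial (Fin M) ℝ)) =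
      ndc z.D q (L k * S.dl 1 k) j := by
    funext a
    rw [eval_add, eval_mul, eval_C, eval_C, eval_X]
    show _ = q a + L k * S.dl 1 k * (2 * nod z.D (j a) - 1)
    ring
  have e2 : dP (fun a => (C (L k * S.dl 1 k * (2 * nod z.D (j a) - 1)) + C 1 * X a : MvPolynomial (Fin M) ℝ)) q v =
      v := by
    funext a
    show eval q (dir v (C (L k * S.dl 1 k * (2 * nod z.D (j a) - 1)) + C 1 * X a)) = v a
    rw [eval_dir2]
    have h3 : ∀ b, eval q (pderiv b (C (L k * S.dl 1 k * (2 * nod z.D (j a) - 1)) + C 1 * X a : MvPolynomial (Fin M) ℝ)) =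
        if a = b then 1 else 0 := by
      intro b
      rw [map_add, pderiv_C, zero_add, Derivation.leibniz, pderiv_C, smul_zero, add_zero, pderiv_X, smul_eq_mul,
        map_mul, eval_C, one_mul]
      by_cases h : a = b
      · subst h
        simp
      · simp [h]
    simp only [h3]
    rw [Finset.sum_eq_single a]
    · rw [if_pos rfl, mul_one]
    · intro b _ hb
      rw [if_neg (fun h => hb h.symm), mul_zero]
    · intro h
      exact absurd (Finset.mem_univ a) h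
  rw [e1, e2]

/-- THE DIFFERENTIAL OF THE ROWS IS STABLE in the cubes of side `L 2 ^ (- n)` -/
theorem row_stab (z : PZ Z Q M) {c : ℝ} (hc : 0 < c) (hc1 : c ≤ 1) (hN : NSV z.X (Lab.ofZ (cqz Z Q c))) {L : ℕ → ℝ}
    (hL : S.Sub L) {ε : ℝ} (hε : 0 < ε) : Typ (S := Z.sp) (fun k (ω : (Z.l k).T.Ω) => ∀ (v : Fin M → ℝ) (i : Fin M)
      (y : Fin M → ℝ), Cub (Q.v k ((Z.l k).p.π ω)) (L k * S.dl 1 k) y →
        |eval y (dir v (z.R.p k ω i)) - eval (Q.v k ((Z.l k).p.π ω)) (dir v (z.R.p k ω i))| ≤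
          S.dl (Z.u - ε) k * ∑ i, |eval (Q.v k ((Z.l k).p.π ω)) (dir v (z.R.p k ω i))|) := by
  obtain ⟨C₁, hC1, hnd⟩ := dir_nodes M z.D
  have hu := Z.hu
  obtain ⟨K, hK, hlp⟩ := z.R.lp (fun k => L k + 1) (hL.add (S.Sub_const zero_le_one))
  have hlp' : Typ (S := Z.sp) (fun k (ω : (Z.l k).T.Ω) =>
    ∀ y : Fin M → ℝ, (∀ i, |y i - Q.v k ((Z.l k).p.π ω) i| ≤ (L k + 1) * S.dl 1 k) → ∀ j,
      |eval y (z.R.p k ω j) - eval (Q.v k ((Z.l k).p.π ω)) (z.R.p k ω j)| ≤ K k * S.dl Z.u k) := hlp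
  have key : ∀ ij : Fin M × (Fin M → Fin (z.D + 1)), Typ (S := Z.sp) (fun k (ω : (Z.l k).T.Ω) => ∀ v : Fin M → ℝ,
      Z.sp.dl (ε / (2 * Z.u)) k * |∑ b, v b * eval (Q.v k ((Z.l k).p.π ω)) (pderiv b (gs z L ij.1 ij.2 k ω))| ≤
        Pool.Agent.Helper49.KL.nv (z.R.p k ω) (Q.v k ((Z.l k).p.π ω)) v) := by
    intro ij
    refine ((RI.ofPZ z).cr hN).inner (D' := z.D) (g := gs z L ij.1 ij.2) (fun k ω => gs_deg z L ij.1 ij.2 k ω) ?_
      (K := fun k => 2 * K k) (Z.Sub_sp.1 ((S.Sub_const zero_le_two).mul hK)) ?_ (by positivity)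
    · filter_upwards [z.R.fn] with k hk ω ω' a b g _
      obtain ⟨g1, g2, -⟩ := Z.hZ k ω ω' a b g
      have h1 : z.R.p k ω = z.R.p k ω' := hk ω ω' a b g2 g1
      show gs z L ij.1 ij.2 k ω = gs z L ij.1 ij.2 k ω'
      unfold gs
      rw [h1]
    · refine Typ.mono (S := Z.sp) hlp' ?_
      filter_upwards [hL.1, hK.1] with k hL0 hK0
      intro (ω : (Z.l k).T.Ω) _ hω y hy
      have hd := S.dl_pos Z.u k
      have hd1 := S.dl_pos 1 k
      show |eval y (gs z L ij.1 ij.2 k ω)| ≤ 2 * K k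
      rw [gs_eval, abs_mul, abs_of_pos (inv_pos.mpr hd), inv_mul_le_iff₀ hd]
      have hy' : ∀ a, |y a - Q.v k ((Z.l k).p.π ω) a| ≤ S.dl 1 k := hy
      have h1 := hω (ndc z.D y (L k * S.dl 1 k) ij.2) (fun a => by
        have h2 := ndc_cub z.D y (mul_nonneg hL0 hd1.le) ij.2 a
        have h3 := hy' a
        have e1 : ndc z.D y (L k * S.dl 1 k) ij.2 a - Q.v k ((Z.l k).p.π ω) a =
          (ndc z.D y (L k * S.dl 1 k) ij.2 a - y a) + (y a - Q.v k ((Z.l k).p.π ω) a) := by ring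
        rw [e1, add_mul, one_mul]
        exact (abs_add_le _ _).trans (add_le_add h2 h3)) ij.1
      have h2 := hω y (fun a => (hy' a).trans (by nlinarith)) ij.1
      rw [abs_le] at *
      constructor <;> linarith [h1.1, h1.2, h2.1, h2.2]
  have h1 := Pool.Agent.Helper7.GZ.Typ_all (S := Z.sp) _ key
  refine Typ.mono (S := Z.sp) (h1.and (row_low z hc hc1 hN (show 0 < min ε c by exact lt_min hε hc))) ?_
  filter_upwards [ev_const S (2 * C₁) (show 0 < ε / 2 by linarith), hL.1] with k k1 hL0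
  intro (ω : (Z.l k).T.Ω) _ hω v i y hy
  set q := Q.v k ((Z.l k).p.π ω) with hq
  set T : ℝ := ∑ i, |eval q (dir v (z.R.p k ω i))| with hT
  have hT0 : 0 ≤ T := Finset.sum_nonneg fun _ _ => abs_nonneg _
  set s : ℝ := ∑ a, |v a| with hs
  have hnv : Pool.Agent.Helper49.KL.nv (z.R.p k ω) q v = s + T := by
    unfold Pool.Agent.Helper49.KL.nv
    rw [hs, hT]
    congr 1
    exact Finset.sum_congr rfl fun i _ => by rw [eval_dir2]
  have hsT : s ≤ T := by
    refine (hω.2 v).trans (mul_le_of_le_one_left hT0 ?_)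
    rw [← S.dl_zero k]
    exact S.dl_anti (by linarith [min_le_right ε c]) k
  have h2 : ∀ j, |eval (ndc z.D q (L k * S.dl 1 k) j) (dir v (z.R.p k ω i)) - eval q (dir v (z.R.p k ω i))| ≤
      2 * S.dl (Z.u - ε / 2) k * T := by
    intro j
    have h3 : Z.sp.dl (ε / (2 * Z.u)) k * |∑ b, v b * eval q (pderiv b (gs z L i j k ω))| ≤
      Pool.Agent.Helper49.KL.nv (z.R.p k ω) q v := hω.1 (i, j) v
    have e1 : Z.u * (ε / (2 * Z.u)) = ε / 2 := by field_simp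
    rw [gs_dir, hnv, Z.sp_dl', abs_mul, abs_of_pos (inv_pos.mpr (S.dl_pos Z.u k)), ← mul_assoc, e1,
      mul_comm (S.dl (ε / 2) k), dl_inv_mul] at h3
    have e2 : S.dl (Z.u - ε / 2) k * S.dl (ε / 2 - Z.u) k = 1 := by
      rw [← Sp.dl_add]
      have : Z.u - ε / 2 + (ε / 2 - Z.u) = 0 := by ring
      rw [this, S.dl_zero]
    have h4 := mul_le_mul_of_nonneg_left h3 (S.dl_pos (Z.u - ε / 2) k).le
    rw [← mul_assoc, e2, one_mul] at h4
    refine h4.trans ?_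
    have h5 := mul_le_mul_of_nonneg_left (show s + T ≤ 2 * T by linarith) (S.dl_pos (Z.u - ε / 2) k).le
    linarith
  have h3 := hnd (z.R.p k ω i) (z.R.deg k ω i) v q (L k * S.dl 1 k) (2 * S.dl (Z.u - ε / 2) k * T)
    (mul_nonneg hL0 (S.dl_pos 1 k).le) (by have := S.dl_pos (Z.u - ε / 2) k; positivity) h2 y hy
  refine h3.trans ?_
  have e3 : S.dl (Z.u - ε / 2) k = S.dl (ε / 2) k * S.dl (Z.u - ε) k := by
    rw [← Sp.dl_add]
    congr 1
    ring
  rw [e3]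
  have h6 : C₁ * (2 * (S.dl (ε / 2) k * S.dl (Z.u - ε) k) * T) =
      (2 * C₁ * S.dl (ε / 2) k) * (S.dl (Z.u - ε) k * T) := by ring
  rw [h6]
  exact mul_le_of_le_one_left (mul_nonneg (S.dl_pos _ k).le hT0) k1

/-- the differential of the rows is large -/
def RLow (z : PZ Z Q M) (c : ℝ) : Prop := ∀ ε : ℝ, 0 < ε → Typ (S := Z.sp) (fun k (ω : (Z.l k).T.Ω) =>
  ∀ v : Fin M → ℝ, (∑ a, |v a|) ≤ S.dl (c - ε) k * ∑ i, |eval (Q.v k ((Z.l k).p.π ω)) (dir v (z.R.p k ω i))|)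

/-- the differential of the rows is stable -/
def RStab (z : PZ Z Q M) : Prop := ∀ L : ℕ → ℝ, S.Sub L → ∀ ε : ℝ, 0 < ε → Typ (S := Z.sp)
  (fun k (ω : (Z.l k).T.Ω) => ∀ (v : Fin M → ℝ) (i : Fin M) (y : Fin M → ℝ),
    Cub (Q.v k ((Z.l k).p.π ω)) (L k * S.dl 1 k) y →
      |eval y (dir v (z.R.p k ω i)) - eval (Q.v k ((Z.l k).p.π ω)) (dir v (z.R.p k ω i))| ≤
        S.dl (Z.u - ε) k * ∑ i, |eval (Q.v k ((Z.l k).p.π ω)) (dir v (z.R.p k ω i))|)

theorem RLow.of_nsv {z : PZ Z Q M} {c : ℝ} (hc : 0 < c) (hc1 : c ≤ 1) (hN : NSV z.X (Lab.ofZ (cqz Z Q c))) :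
    RLow z c := fun _ hε => row_low z hc hc1 hN hε

theorem RStab.of_nsv {z : PZ Z Q M} {c : ℝ} (hc : 0 < c) (hc1 : c ≤ 1) (hN : NSV z.X (Lab.ofZ (cqz Z Q c))) :
    RStab z := fun _ hL _ hε => row_stab z hc hc1 hN hL hε

/-- THE ROWS ARE BI-LIPSCHITZ AT THE FINEST SCALE -/
theorem row_bilip (z : PZ Z Q M) {c : ℝ} (hlow : RLow z c) (hst : RStab z) {L : ℕ → ℝ}
    (hL : S.Sub L) {ε : ℝ} (hε : 0 < ε) : Typ (S := Z.sp) (fun k (ω : (Z.l k).T.Ω) => ∀ y y' : Fin M → ℝ,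
      Cub (Q.v k ((Z.l k).p.π ω)) (L k * S.dl 1 k) y → Cub (Q.v k ((Z.l k).p.π ω)) (L k * S.dl 1 k) y' →
        (∑ a, |y' a - y a|) ≤ S.dl (c - ε) k * ∑ i, |eval y' (z.R.p k ω i) - eval y (z.R.p k ω i)|) := by
  have hu := Z.hu
  refine Typ.mono (S := Z.sp) (Typ.and (S := Z.sp) (hlow _ (half_pos hε)) (hst L hL _ (half_pos hu))) ?_
  filter_upwards [ev_const S (2 * M) (half_pos hu), ev_const S 2 (half_pos hε)] with k k1 k2
  intro (ω : (Z.l k).T.Ω) _ hω y y' hy hy'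
  set q := Q.v k ((Z.l k).p.π ω) with hq
  have h1 := rows_diff (p := z.R.p k ω) (q := q) (R := L k * S.dl 1 k) (η := S.dl (Z.u - Z.u / 2) k) (by
    have e1 : Z.u - Z.u / 2 = Z.u / 2 := by ring
    rw [e1]
    linarith) hy hy' (fun i w hw => hω.2 (fun a => y' a - y a) i w hw)
  have h2 := hω.1 (fun a => y' a - y a)
  have h3 := mul_le_mul_of_nonneg_left h1 (S.dl_pos (c - ε / 2) k).le
  refine (h2.trans h3).trans ?_
  have e3 : S.dl (c - ε / 2) k = S.dl (ε / 2) k * S.dl (c - ε) k := by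
    rw [← Sp.dl_add]
    congr 1
    ring
  have h4 : 0 ≤ ∑ i, |eval y' (z.R.p k ω i) - eval y (z.R.p k ω i)| := Finset.sum_nonneg fun _ _ => abs_nonneg _
  rw [e3]
  have h6 : S.dl (ε / 2) k * S.dl (c - ε) k * (2 * ∑ i, |eval y' (z.R.p k ω i) - eval y (z.R.p k ω i)|) =
      (2 * S.dl (ε / 2) k) * (S.dl (c - ε) k * ∑ i, |eval y' (z.R.p k ω i) - eval y (z.R.p k ω i)|) := by ring
  rw [h6]
  exact mul_le_of_le_one_left (mul_nonneg (S.dl_pos _ k).le h4) k2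

end

end Pool.Agent.Helper55.INV
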