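import Pool.Agent.Helper49.KL.Alg

/-! COMPARISON OF CHARTS ALONG A SEGMENT: charts `φ`, `Φ` near curves `τ`, `Θ` with bounded second differences; if at a
small parameter the increments of `Φ` are at most `G` times those of `φ` then this holds for the increments of `Θ` and
`τ` on the whole segment, up to second order terms. -/

set_option autoImplicit false

namespace Pool.Agent.Helper55.INV

open Finset

noncomputable section

/-- second differences of polynomials -/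
theorem poly_lin (N : ℕ) : ∃ C : ℝ, 1 ≤ C ∧ ∀ (P : Polynomial ℝ) (η : ℝ), P.natDegree ≤ N → 0 ≤ η →
    (∀ s : ℝ, 0 ≤ s → s ≤ 1 → |P.eval s| ≤ η) → ∃ a : ℝ, ∀ t : ℝ, 0 ≤ t → t ≤ 1 →
      |P.eval t - P.eval 0 - t * a| ≤ C * η * t ^ 2 := by
  obtain ⟨C, hC, h1⟩ := Pool.Agent.Helper49.KL.taylor_small N
  refine ⟨(N + 1) * C, by nlinarith [(Nat.cast_nonneg N : (0 : ℝ) ≤ N)], fun P η hP hη hs => ⟨P.coeff 1, fun t t0 t1 => ?_⟩⟩
  have h2 : ∀ j, |P.coeff j| ≤ C * η := by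
    intro j
    rcases Nat.lt_or_ge N j with hj | hj
    · rw [Polynomial.coeff_eq_zero_of_natDegree_lt (lt_of_le_of_lt hP hj), abs_zero]
      positivity
    · have h3 := h1 P 0 1 η hP hη (fun s s0 s1 => by
        rw [zero_add, mul_one]
        exact hs s s0 s1) j hj
      rw [Polynomial.taylor_zero', LinearMap.id_apply, abs_one, one_pow, mul_one] at h3
      exact h3
  have e1 : P.eval t - P.eval 0 - t * P.coeff 1 = ∑ j ∈ Finset.range (N + 1), (if 2 ≤ j then P.coeff j * t ^ j else 0) := by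
    rw [Polynomial.eval_eq_sum_range' (Nat.lt_succ_of_le hP), ← Polynomial.coeff_zero_eq_eval_zero]
    rcases Nat.eq_zero_or_pos N with hN | hN
    · subst hN
      have h3 : P.coeff 1 = 0 := Polynomial.coeff_eq_zero_of_natDegree_lt (lt_of_le_of_lt hP one_pos)
      simp [h3]
    · obtain ⟨n, rfl⟩ : ∃ n, N = n + 1 := ⟨N - 1, by omega⟩
      rw [Finset.sum_range_succ', Finset.sum_range_succ', Finset.sum_range_succ', Finset.sum_range_succ']
      simp only [zero_add, pow_zero, pow_one, mul_one]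
      have h3 : ∀ j ∈ Finset.range n, (if 2 ≤ j + 1 + 1 then P.coeff (j + 1 + 1) * t ^ (j + 1 + 1) else 0) =
          P.coeff (j + 1 + 1) * t ^ (j + 1 + 1) := fun j _ => if_pos (by omega)
      rw [Finset.sum_congr rfl h3]
      norm_num
      ring
  rw [e1]
  refine (Finset.abs_sum_le_sum_abs _ _).trans ?_
  have h4 : ∀ j ∈ Finset.range (N + 1), |(if 2 ≤ j then P.coeff j * t ^ j else 0)| ≤ C * η * t ^ 2 := by
    intro j _
    split_ifs with hj
    · rw [abs_mul, abs_pow, abs_of_nonneg t0]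
      apply mul_le_mul (h2 j) (pow_le_pow_of_le_one t0 t1 hj) (by positivity) (by positivity)
    · rw [abs_zero]
      positivity
  refine (Finset.sum_le_card_nsmul _ _ _ h4).trans (le_of_eq ?_)
  rw [Finset.card_range, nsmul_eq_mul]
  push_cast
  ring

/-- COMPARISON ALONG A SEGMENT -/
theorem seg_cmp {N : ℕ} {φ τ Φ Θ : Fin N → ℝ → ℝ} {a A : Fin N → ℝ} {B ε t0 t1 δ G : ℝ} (hB : 0 ≤ B) (hε : 0 ≤ ε)
    (ht0 : 0 < t0) (ht0' : t0 ≤ 1) (ht1 : 0 ≤ t1) (ht1' : t1 ≤ 1) (hG : 1 ≤ G)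
    (h1 : ∀ j t, 0 ≤ t → t ≤ 1 → |τ j t - τ j 0 - t * a j| ≤ B * t ^ 2)
    (h2 : ∀ j t, 0 ≤ t → t ≤ 1 → |Θ j t - Θ j 0 - t * A j| ≤ B * t ^ 2)
    (h3 : ∀ j, |(φ j t0 - τ j t0) - (φ j 0 - τ j 0)| ≤ B * t0 * ε)
    (h4 : ∀ j, |(Φ j t0 - Θ j t0) - (Φ j 0 - Θ j 0)| ≤ B * t0 * ε)
    (h5 : (∑ j, |Φ j t0 - Φ j 0|) ≤ G * ∑ j, |φ j t0 - φ j 0|)
    (h6 : ∀ j, |τ j t1 - τ j 0| ≤ δ) :
    (∑ j, |Θ j t1 - Θ j 0|) ≤ 3 * N * G * (δ + B * (t1 ^ 2 + t1 * (t0 + ε))) := by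
  set Sa : ℝ := ∑ j, |a j| with hSa
  set SA : ℝ := ∑ j, |A j| with hSA
  have hN : (0 : ℝ) ≤ N := Nat.cast_nonneg N
  have hSa0 : 0 ≤ Sa := Finset.sum_nonneg fun _ _ => abs_nonneg _
  have hSA0 : 0 ≤ SA := Finset.sum_nonneg fun _ _ => abs_nonneg _
  have csum : ∀ c : ℝ, (∑ _j : Fin N, c) = N * c := fun c => by
    rw [Finset.sum_const, Finset.card_univ, Fintype.card_fin, nsmul_eq_mul]
  -- the slopes of `τ`
  have g1 : t1 * Sa ≤ N * δ + N * (B * t1 ^ 2) := by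
    have : t1 * Sa ≤ ∑ _j : Fin N, (δ + B * t1 ^ 2) := by
      rw [hSa, Finset.mul_sum]
      refine Finset.sum_le_sum fun j _ => ?_
      have e1 : t1 * |a j| = |t1 * a j| := by rw [abs_mul, abs_of_nonneg ht1]
      rw [e1]
      have k1 := h1 j t1 ht1 ht1'
      have k2 := h6 j
      have e2 : t1 * a j = (τ j t1 - τ j 0) - (τ j t1 - τ j 0 - t1 * a j) := by ring
      rw [e2]
      exact (abs_sub _ _).trans (add_le_add k2 k1)
    rw [csum] at this
    linarith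
  have g2 : (∑ j, |φ j t0 - φ j 0|) ≤ t0 * Sa + N * (B * t0 ^ 2 + B * t0 * ε) := by
    have : (∑ j, |φ j t0 - φ j 0|) ≤ ∑ j, (t0 * |a j| + (B * t0 ^ 2 + B * t0 * ε)) := by
      refine Finset.sum_le_sum fun j _ => ?_
      have k1 := h1 j t0 ht0.le ht0'
      have k2 := h3 j
      have e2 : φ j t0 - φ j 0 = t0 * a j + (τ j t0 - τ j 0 - t0 * a j) + ((φ j t0 - τ j t0) - (φ j 0 - τ j 0)) := by
        ring
      rw [e2]
      refine (abs_add_le _ _).trans ?_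
      have k3 := abs_add_le (t0 * a j) (τ j t0 - τ j 0 - t0 * a j)
      rw [abs_mul, abs_of_pos ht0] at k3
      linarith
    rw [Finset.sum_add_distrib, csum, ← Finset.mul_sum] at this
    exact this
  have g3 : t0 * SA ≤ (∑ j, |Φ j t0 - Φ j 0|) + N * (B * t0 ^ 2 + B * t0 * ε) := by
    have : t0 * SA ≤ ∑ j, (|Φ j t0 - Φ j 0| + (B * t0 ^ 2 + B * t0 * ε)) := by
      rw [hSA, Finset.mul_sum]
      refine Finset.sum_le_sum fun j _ => ?_
      have k1 := h2 j t0 ht0.le ht0'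
      have k2 := h4 j
      have e1 : t0 * |A j| = |t0 * A j| := by rw [abs_mul, abs_of_pos ht0]
      have e2 : t0 * A j = (Φ j t0 - Φ j 0) - (Θ j t0 - Θ j 0 - t0 * A j) - ((Φ j t0 - Θ j t0) - (Φ j 0 - Θ j 0)) := by
        ring
      rw [e1, e2]
      refine (abs_sub _ _).trans ?_
      have k3 := abs_sub (Φ j t0 - Φ j 0) (Θ j t0 - Θ j 0 - t0 * A j)
      linarith
    rw [Finset.sum_add_distrib, csum] at this
    exact this
  -- the slopes of `Θ`
  set W : ℝ := N * (B * (t0 + ε)) with hW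
  have hW0 : 0 ≤ W := by positivity
  have e3 : N * (B * t0 ^ 2 + B * t0 * ε) = t0 * W := by
    rw [hW]
    ring
  rw [e3] at g2 g3
  have g4 : t0 * SA ≤ t0 * (G * (Sa + W) + W) := by
    have k1 : G * ∑ j, |φ j t0 - φ j 0| ≤ G * (t0 * Sa + t0 * W) := mul_le_mul_of_nonneg_left g2 (by linarith)
    have e4 : t0 * (G * (Sa + W) + W) = G * (t0 * Sa + t0 * W) + t0 * W := by ring
    rw [e4]
    linarith
  have g5 : SA ≤ G * (Sa + W) + W := le_of_mul_le_mul_left g4 ht0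
  have g6 : t1 * SA ≤ G * (N * δ + N * (B * t1 ^ 2) + t1 * W) + t1 * W := by
    have k1 := mul_le_mul_of_nonneg_left g5 ht1
    have k2 : G * (t1 * Sa) ≤ G * (N * δ + N * (B * t1 ^ 2)) := mul_le_mul_of_nonneg_left g1 (by linarith)
    nlinarith
  have g7 : (∑ j, |Θ j t1 - Θ j 0|) ≤ t1 * SA + N * (B * t1 ^ 2) := by
    have : (∑ j, |Θ j t1 - Θ j 0|) ≤ ∑ j, (t1 * |A j| + B * t1 ^ 2) := by
      refine Finset.sum_le_sum fun j _ => ?_
      have k1 := h2 j t1 ht1 ht1'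
      have e2 : Θ j t1 - Θ j 0 = t1 * A j + (Θ j t1 - Θ j 0 - t1 * A j) := by ring
      rw [e2]
      refine (abs_add_le _ _).trans ?_
      rw [abs_mul, abs_of_nonneg ht1]
      linarith
    rw [Finset.sum_add_distrib, csum, ← Finset.mul_sum] at this
    exact this
  -- the end
  have hδ : 0 ≤ N * δ := by
    rcases Nat.eq_zero_or_pos N with hz | hz
    · rw [hz]
      simp
    · exact mul_nonneg hN ((abs_nonneg _).trans (h6 ⟨0, hz⟩))
  have q1 : t1 * W ≤ G * (t1 * W) := le_mul_of_one_le_left (by positivity) hG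
  have q2 : N * (B * t1 ^ 2) ≤ G * (N * (B * t1 ^ 2)) := le_mul_of_one_le_left (by positivity) hG
  have q3 : 0 ≤ G * (N * δ) := mul_nonneg (by linarith) hδ
  have q4 : 0 ≤ G * (N * (B * t1 ^ 2)) := mul_nonneg (by linarith) (by positivity)
  have q5 : 0 ≤ G * (t1 * W) := mul_nonneg (by linarith) (by positivity)
  have e5 : 3 * N * G * (δ + B * (t1 ^ 2 + t1 * (t0 + ε))) =
      3 * (G * (N * δ)) + 3 * (G * (N * (B * t1 ^ 2))) + 3 * (G * (t1 * W)) := by
    rw [hW]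
    ring
  rw [e5]
  nlinarith

end

end Pool.Agent.Helper55.INV
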